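import Pool.Agent.V7H93.Hyp.Exist

set_option autoImplicit false

/-! The multiplier `a`, solving `a' = q a - 1`, with `q a` antitone on `(0,R]`. -/

namespace Pool.Agent.V7H93.Hyp

open Set Filter Topology MeasureTheory

theorem q_deriv (k : ℕ) {r : ℝ} (hr : 0 < r) :
    HasDerivAt (q k) (-(k / Real.sinh r ^ 2)) r := by
  have hs := Real.sinh_pos_iff.2 hr
  have h := (((Real.hasDerivAt_cosh r).fun_div (Real.hasDerivAt_sinh r) hs.ne').const_mul (k : ℝ))
  refine h.congr_deriv ?_
  have := Real.cosh_sq r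
  field_simp
  rw [this]; ring

theorem den_pos {k : ℕ} (hk : 1 ≤ k) {r : ℝ} (hr : 0 < r) : 0 < k * Real.cosh r ^ 2 - 1 := by
  have h1 : (1 : ℝ) ≤ k := by exact_mod_cast hk
  have hs := Real.sinh_pos_iff.2 hr
  have := Real.cosh_sq r
  have h2 : Real.cosh r ^ 2 ≤ k * Real.cosh r ^ 2 := by
    have := mul_le_mul_of_nonneg_right h1 (sq_nonneg (Real.cosh r))
    linarith
  nlinarith [mul_pos hs hs]

/-- the barrier -/
noncomputable def abar (k : ℕ) (r : ℝ) : ℝ :=
  Real.sinh r * Real.cosh r / (k * Real.cosh r ^ 2 - 1)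

theorem abar_pos {k : ℕ} (hk : 1 ≤ k) {r : ℝ} (hr : 0 < r) : 0 < abar k r := by
  unfold abar
  exact div_pos (mul_pos (Real.sinh_pos_iff.2 hr) (Real.cosh_pos r)) (den_pos hk hr)

theorem alg1 (k c s D : ℝ) (hD : D ≠ 0) (hs : s ≠ 0) (h1 : c ^ 2 = s ^ 2 + 1)
    (h2 : k * c ^ 2 = D + 1) :
    ((c * c + s * s) * D - s * c * (k * (2 * c * s))) / D ^ 2 =
      k * (c / s) * (s * c / D) - 1 - 2 * s ^ 2 / D ^ 2 := by
  field_simp
  linear_combination (-2 * s ^ 2 - D) * h2 + D * h1

theorem abar_deriv {k : ℕ} (hk : 1 ≤ k) {r : ℝ} (hr : 0 < r) :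
    HasDerivAt (abar k) (q k r * abar k r - 1 -
      2 * Real.sinh r ^ 2 / (k * Real.cosh r ^ 2 - 1) ^ 2) r := by
  have hs := Real.sinh_pos_iff.2 hr
  have hd := den_pos hk hr
  have h1 := (Real.hasDerivAt_sinh r).fun_mul (Real.hasDerivAt_cosh r)
  have h2 := (((Real.hasDerivAt_cosh r).fun_pow 2).const_mul (k : ℝ)).sub_const 1
  refine (h1.fun_div h2 hd.ne').congr_deriv ?_
  unfold abar q
  rw [← alg1 k (Real.cosh r) (Real.sinh r) _ hd.ne' hs.ne' (Real.cosh_sq r) (by ring)]
  simp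

theorem invS_contOn (k : ℕ) : ContinuousOn (fun s => (S k s)⁻¹) (Ioi 0) :=
  (S_cont k).continuousOn.inv₀ fun _ hx => (S_pos k hx).ne'

theorem invS_int (k : ℕ) {a b : ℝ} (ha : 0 < a) (hb : 0 < b) :
    IntervalIntegrable (fun s => (S k s)⁻¹) volume a b := by
  refine ContinuousOn.intervalIntegrable ((invS_contOn k).mono fun x hx => ?_)
  have := hx.1
  exact lt_of_lt_of_le (lt_min ha hb) this

/-- the multiplier -/
theorem exists_a {k : ℕ} (hk : 1 ≤ k) {R : ℝ} (hR : 0 < R) :
    ∃ a : ℝ → ℝ, (∀ r, 0 < r → HasDerivAt a (q k r * a r - 1) r) ∧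
      (∀ r, 0 < r → r ≤ R → 0 < a r) ∧ (∃ K, ∀ r, 0 < r → r ≤ R → a r ≤ K) ∧
      (∀ r, 0 < r → r ≤ R →
        -(k / Real.sinh r ^ 2) * a r + q k r * (q k r * a r - 1) ≤ 0) := by
  set c0 : ℝ := abar k R / S k R with hc0
  have hc0p : 0 < c0 := div_pos (abar_pos hk hR) (S_pos k hR)
  set I : ℝ → ℝ := fun r => ∫ s in r..R, (S k s)⁻¹ with hI
  have hId : ∀ r, 0 < r → HasDerivAt I (-(S k r)⁻¹) r := by
    intro r hr
    refine intervalIntegral.integral_hasDerivAt_left (invS_int k hr hR) ?_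
      ((invS_contOn k).continuousAt (Ioi_mem_nhds hr))
    exact (invS_contOn k).stronglyMeasurableAtFilter isOpen_Ioi r hr
  set a : ℝ → ℝ := fun r => S k r * (c0 + I r) with ha
  have had : ∀ r, 0 < r → HasDerivAt a (q k r * a r - 1) r := by
    intro r hr
    have hS := S_pos k hr
    refine ((S_deriv k hr).fun_mul ((hId r hr).const_add c0)).congr_deriv ?_
    simp only [ha]
    field_simp
    ring
  have hI0 : ∀ r, 0 < r → r ≤ R → 0 ≤ I r := fun r hr hrR =>
    intervalIntegral.integral_nonneg hrR fun s hs => inv_nonneg.2 (S_nonneg k (hr.le.trans hs.1))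
  have hIR : I R = 0 := by simp [hI]
  have hapos : ∀ r, 0 < r → r ≤ R → 0 < a r := fun r hr hrR =>
    mul_pos (S_pos k hr) (by have := hI0 r hr hrR; linarith)
  -- comparison with the barrier
  have hb : AntitoneOn (fun r => abar k r / S k r - (c0 + I r)) (Ioc 0 R) := by
    have hd : ∀ r, 0 < r → HasDerivAt (fun r => abar k r / S k r - (c0 + I r))
        (-(2 * Real.sinh r ^ 2 / (k * Real.cosh r ^ 2 - 1) ^ 2 / S k r)) r := by
      intro r hr
      have hS := S_pos k hr
      refine (((abar_deriv hk hr).fun_div (S_deriv k hr) hS.ne').fun_sub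
        ((hId r hr).const_add c0)).congr_deriv ?_
      generalize 2 * Real.sinh r ^ 2 / (k * Real.cosh r ^ 2 - 1) ^ 2 = X
      generalize abar k r = Y
      field_simp
      ring
    refine antitoneOn_of_deriv_nonpos (convex_Ioc 0 R)
      (fun r hr => (hd r hr.1).continuousAt.continuousWithinAt) ?_ ?_
    · intro s hs
      rw [interior_Ioc] at hs
      exact (hd s hs.1).differentiableAt.differentiableWithinAt
    · intro s hs
      rw [interior_Ioc] at hs
      rw [(hd s hs.1).deriv]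
      have := S_pos k hs.1
      have : 0 ≤ 2 * Real.sinh s ^ 2 / (k * Real.cosh s ^ 2 - 1) ^ 2 / S k s := by positivity
      linarith
  have hle : ∀ r, 0 < r → r ≤ R → a r ≤ abar k r := by
    intro r hr hrR
    have h1 := hb ⟨hr, hrR⟩ ⟨hR, le_rfl⟩ hrR
    simp only [hIR] at h1
    have h2 : c0 + I r ≤ abar k r / S k r := by
      rw [← hc0] at h1; linarith
    rw [le_div_iff₀ (S_pos k hr)] at h2
    simp only [ha]
    linarith
  refine ⟨a, had, hapos, ⟨S k R * c0 + R, fun r hr hrR => ?_⟩, ?_⟩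
  · have h1 : S k r * I r ≤ R := by
      have h2 : S k r * I r = ∫ s in r..R, S k r * (S k s)⁻¹ := by
        simp only [hI]
        rw [intervalIntegral.integral_const_mul]
      rw [h2]
      have h3 : ∫ s in r..R, S k r * (S k s)⁻¹ ≤ ∫ s in r..R, (1 : ℝ) := by
        refine intervalIntegral.integral_mono_on hrR ((invS_int k hr hR).const_mul _)
          intervalIntegrable_const fun s hs => ?_
        rw [← div_eq_mul_inv, div_le_one (S_pos k (hr.trans_le hs.1))]
        exact S_mono k hr.le hs.1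
      refine h3.trans ?_
      simp
      exact hr.le
    have h4 : S k r * c0 ≤ S k R * c0 := mul_le_mul_of_nonneg_right (S_mono k hr.le hrR) hc0p.le
    simp only [ha]
    linarith
  · intro s hs hsR
    have h1 := hle s hs hsR
    unfold abar at h1
    rw [le_div_iff₀ (den_pos hk hs)] at h1
    have hsn := Real.sinh_pos_iff.2 hs
    have hk0 : (0 : ℝ) < k := by exact_mod_cast hk
    have h2 : -(k / Real.sinh s ^ 2) * a s + q k s * (q k s * a s - 1) =
        (k / Real.sinh s ^ 2) * (a s * (k * Real.cosh s ^ 2 - 1) - Real.sinh s * Real.cosh s) := by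
      unfold q
      field_simp
      ring
    rw [h2]
    exact mul_nonpos_of_nonneg_of_nonpos (by positivity) (by linarith)

theorem qa_deriv {k : ℕ} {a : ℝ → ℝ} (ha : ∀ r, 0 < r → HasDerivAt a (q k r * a r - 1) r) {r : ℝ}
    (hr : 0 < r) : HasDerivAt (fun r => q k r * a r)
      (-(k / Real.sinh r ^ 2) * a r + q k r * (q k r * a r - 1)) r :=
  (q_deriv k hr).fun_mul (ha r hr)

theorem qa_anti {k : ℕ} {a : ℝ → ℝ} {R : ℝ} (ha : ∀ r, 0 < r → HasDerivAt a (q k r * a r - 1) r)
    (h : ∀ r, 0 < r → r ≤ R → -(k / Real.sinh r ^ 2) * a r + q k r * (q k r * a r - 1) ≤ 0) :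
    AntitoneOn (fun r => q k r * a r) (Ioc 0 R) := by
  refine antitoneOn_of_deriv_nonpos (convex_Ioc 0 R)
    (fun r hr => (qa_deriv ha hr.1).continuousAt.continuousWithinAt) ?_ ?_
  · intro s hs
    rw [interior_Ioc] at hs
    exact (qa_deriv ha hs.1).differentiableAt.differentiableWithinAt
  · intro s hs
    rw [interior_Ioc] at hs
    rw [(qa_deriv ha hs.1).deriv]
    exact h s hs.1 hs.2.le

end Pool.Agent.V7H93.Hyp
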