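import Pool.Agent.V7H93.Hyp.Sign

set_option autoImplicit false

/-! Counting zeros with a continuous angle. -/

namespace Pool.Agent.V7H93.Hyp

open Set Filter Topology MeasureTheory

/-- `θ` crosses its value at `t` upwards -/
def UpAt (θ : ℝ → ℝ) (t : ℝ) : Prop := ∀ᶠ s in 𝓝[≠] t, 0 < (s - t) * (θ s - θ t)

theorem up_of {θ ρ : ℝ → ℝ} {t ρ0 : ℝ} (hθ : ContinuousAt θ t) (hc : Real.cos (θ t) = 0)
    (hρ : ∀ s, 0 < ρ s) (hρ0 : 0 < ρ0)
    (h : ∀ᶠ s in 𝓝[≠] t, 0 < (s - t) * ((ρ s * Real.cos (θ s)) * (-(ρ0 * Real.sin (θ t))))) :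
    UpAt θ t := by
  have h1 : ∀ᶠ s in 𝓝[≠] t, |θ s - θ t| < Real.pi := by
    have : Tendsto (fun s => |θ s - θ t|) (𝓝[≠] t) (𝓝 0) := by
      have := ((hθ.tendsto.sub_const (θ t)).abs).mono_left (nhdsWithin_le_nhds (s := {t}ᶜ))
      simpa using this
    exact this.eventually (gt_mem_nhds Real.pi_pos)
  filter_upwards [h, h1] with s hs hs1
  have h2 : Real.cos (θ s) = -(Real.sin (θ t) * Real.sin (θ s - θ t)) := by
    have h3 : θ s = θ t + (θ s - θ t) := by ring
    calc Real.cos (θ s) = Real.cos (θ t + (θ s - θ t)) := by rw [← h3]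
      _ = _ := by rw [Real.cos_add, hc]; ring
  rw [h2] at hs
  have h3 : 0 < (ρ s * ρ0 * Real.sin (θ t) ^ 2) * ((s - t) * Real.sin (θ s - θ t)) := by
    have : (s - t) * ((ρ s * -(Real.sin (θ t) * Real.sin (θ s - θ t))) * (-(ρ0 * Real.sin (θ t)))) =
      (ρ s * ρ0 * Real.sin (θ t) ^ 2) * ((s - t) * Real.sin (θ s - θ t)) := by ring
    rwa [this] at hs
  have h4 : 0 ≤ ρ s * ρ0 * Real.sin (θ t) ^ 2 := by
    have := hρ s
    positivity
  have h5 : 0 < (s - t) * Real.sin (θ s - θ t) := by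
    by_contra hcon
    push Not at hcon
    nlinarith
  rw [abs_lt] at hs1
  rcases lt_trichotomy (θ s - θ t) 0 with h6 | h6 | h6
  · have h7 := Real.sin_neg_of_neg_of_neg_pi_lt h6 hs1.1
    have h8 : s - t < 0 := by
      by_contra hcon
      push Not at hcon
      nlinarith
    exact mul_pos_of_neg_of_neg h8 h6
  · rw [h6, Real.sin_zero, mul_zero] at h5
    exact absurd h5 (lt_irrefl _)
  · have h7 := Real.sin_pos_of_pos_of_lt_pi h6 hs1.2
    have h8 : 0 < s - t := by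
      by_contra hcon
      push Not at hcon
      nlinarith
    exact mul_pos h8 h6

theorem barrier {θ : ℝ → ℝ} {a b c : ℝ} (hab : a < b) (hθ : ContinuousOn θ (Icc a b))
    (hup : ∀ t, a ≤ t → t ≤ b → θ t = c → UpAt θ t) (ha : c ≤ θ a) : c < θ b := by
  by_contra hcon
  push Not at hcon
  -- a point right of `a` with `θ > c`
  obtain ⟨a', ha'1, ha'2, ha'3⟩ : ∃ a', a ≤ a' ∧ a' < b ∧ c < θ a' := by
    rcases ha.lt_or_eq with h | h
    · exact ⟨a, le_rfl, hab, h⟩
    · have h1 := hup a le_rfl hab.le h.symm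
      have h2 : ∀ᶠ s in 𝓝[>] a, 0 < (s - a) * (θ s - θ a) :=
        h1.filter_mono (nhdsWithin_mono a fun x (hx : a < x) => hx.ne')
      obtain ⟨s, hs1, hs2⟩ := (h2.and (Ioo_mem_nhdsGT hab)).exists
      refine ⟨s, hs2.1.le, hs2.2, ?_⟩
      have h3 : 0 < s - a := by linarith [hs2.1]
      have := (mul_pos_iff_of_pos_left h3).1 hs1
      linarith
  have hc' : ContinuousOn θ (Icc a' b) := hθ.mono (Icc_subset_Icc_left ha'1)
  have hcl : IsCompact (Icc a' b ∩ θ ⁻¹' Iic c) :=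
    isCompact_Icc.of_isClosed_subset (hc'.preimage_isClosed_of_isClosed isClosed_Icc isClosed_Iic)
      inter_subset_left
  obtain ⟨t, ⟨⟨ht1, ht2⟩, ht3⟩, htmin⟩ := hcl.exists_isLeast ⟨b, ⟨ha'2.le, le_rfl⟩, hcon⟩
  have ht3' : θ t ≤ c := ht3
  have hta : a' < t := lt_of_le_of_ne ht1 (by rintro rfl; linarith)
  have hbefore : ∀ s, a' ≤ s → s < t → c < θ s := by
    intro s hs hst
    by_contra hcon
    push Not at hcon
    have := htmin ⟨⟨hs, hst.le.trans ht2⟩, hcon⟩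
    linarith
  have hleft : Tendsto θ (𝓝[Ioo a' t] t) (𝓝 (θ t)) :=
    (hc' t ⟨ht1, ht2⟩).mono_left (nhdsWithin_mono _ fun x hx => ⟨hx.1.le, hx.2.le.trans ht2⟩)
  have : (𝓝[Ioo a' t] t).NeBot := by
    rw [← mem_closure_iff_nhdsWithin_neBot, closure_Ioo hta.ne]
    exact right_mem_Icc.2 hta.le
  have h1 : c ≤ θ t := by
    refine ge_of_tendsto hleft ?_
    filter_upwards [self_mem_nhdsWithin] with s hs
    exact (hbefore s hs.1.le hs.2).le
  have h2 : θ t = c := le_antisymm ht3' h1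
  have h3 := hup t (ha'1.trans ht1) ht2 h2
  have h4 : ∀ᶠ s in 𝓝[Ioo a' t] t, 0 < (s - t) * (θ s - θ t) :=
    h3.filter_mono (nhdsWithin_mono t fun x hx => hx.2.ne)
  obtain ⟨s, hs1, hs2⟩ := (h4.and self_mem_nhdsWithin).exists
  have h5 := hbefore s hs2.1.le hs2.2
  rw [h2] at hs1
  have h6 : s - t < 0 := by linarith [hs2.2]
  nlinarith

/-- from the sign of `(x s) / (s - t)` to the sign of `(s - t) x s` -/
theorem ev_of_slope {x : ℝ → ℝ} {t l m : ℝ} (h : Tendsto (fun s => x s / (s - t)) (𝓝[≠] t) (𝓝 l))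
    (hlm : 0 < l * m) : ∀ᶠ s in 𝓝[≠] t, 0 < (s - t) * (x s * m) := by
  have h1 := (h.mul_const m).eventually (lt_mem_nhds hlm)
  filter_upwards [h1, self_mem_nhdsWithin] with s hs hst
  have h2 : s - t ≠ 0 := sub_ne_zero.2 hst
  have h3 : 0 < (s - t) ^ 2 := by positivity
  have h4 := mul_pos hs h3
  have h5 : x s / (s - t) * m * (s - t) ^ 2 = (s - t) * (x s * m) := by
    field_simp
  rwa [h5] at h4

variable {k : ℕ} {p : ℝ}

theorem dep_abs (hk : 1 ≤ k) (hp : 1 < p) {α β M : ℝ} (hα : |α| ≤ M) (hβ : |β| ≤ M)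
    {u du v dv : ℝ → ℝ} (hu : Sol k (fun _ v => f p v) α u du)
    (hv : Sol k (fun _ v => f p v) β v dv) {r : ℝ} (hr : 0 ≤ r) :
    |u r - v r| ≤ |α - β| * Real.exp ((p * M ^ (p - 1) + 2) * r / 2) ∧
    |du r - dv r| ≤ |α - β| * Real.exp ((p * M ^ (p - 1) + 2) * r / 2) := by
  have h := dep hk hp hα hβ hu hv hr
  have h1 : (α - β) ^ 2 * Real.exp ((p * M ^ (p - 1) + 2) * r) =
      (|α - β| * Real.exp ((p * M ^ (p - 1) + 2) * r / 2)) ^ 2 := by
    rw [mul_pow, sq_abs, sq (Real.exp _), ← Real.exp_add]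
    ring_nf
  rw [h1] at h
  constructor
  · exact abs_le_of_sq_le_sq (by nlinarith [sq_nonneg (du r - dv r)]) (by positivity)
  · exact abs_le_of_sq_le_sq (by nlinarith [sq_nonneg (u r - v r)]) (by positivity)

/-- joint continuity of a family -/
theorem joint_cont {X : ℝ → ℝ → ℝ} (hX : ∀ γ, 0 < γ → ContinuousOn (X γ) (Ici 0))
    (hlip : ∀ M, 0 < M → ∃ C, ∀ γ γ', 0 < γ → γ ≤ M → 0 < γ' → γ' ≤ M → ∀ r, 0 ≤ r →
      |X γ r - X γ' r| ≤ |γ - γ'| * Real.exp (C * r)) :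
    Continuous fun x : ℝ × ℝ => X (Real.exp x.2) |x.1| := by
  rw [continuous_iff_continuousAt]
  rintro ⟨r0, s0⟩
  have hc : Continuous fun r => X (Real.exp s0) |r| :=
    (hX _ (Real.exp_pos s0)).comp_continuous continuous_abs fun x => abs_nonneg x
  have h2 : Tendsto (fun x : ℝ × ℝ => X (Real.exp s0) |x.1|) (𝓝 (r0, s0))
      (𝓝 (X (Real.exp s0) |r0|)) := (hc.comp continuous_fst).tendsto (r0, s0)
  obtain ⟨C, hC⟩ := hlip (2 * Real.exp s0) (by positivity)
  have h3 : Tendsto (fun x : ℝ × ℝ => |Real.exp x.2 - Real.exp s0| * Real.exp (C * |x.1|))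
      (𝓝 (r0, s0)) (𝓝 0) := by
    have : Continuous fun x : ℝ × ℝ => |Real.exp x.2 - Real.exp s0| * Real.exp (C * |x.1|) := by
      fun_prop
    have := this.tendsto (r0, s0)
    simpa using this
  have h4 : Tendsto (fun x : ℝ × ℝ => X (Real.exp x.2) |x.1| - X (Real.exp s0) |x.1|)
      (𝓝 (r0, s0)) (𝓝 0) := by
    refine squeeze_zero_norm' ?_ h3
    have h5 : ∀ᶠ x : ℝ × ℝ in 𝓝 (r0, s0), Real.exp x.2 < 2 * Real.exp s0 := by
      have : Continuous fun x : ℝ × ℝ => Real.exp x.2 := by fun_prop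
      refine (this.tendsto (r0, s0)).eventually (gt_mem_nhds ?_)
      have := Real.exp_pos s0
      simp only
      linarith
    filter_upwards [h5] with x hx
    rw [Real.norm_eq_abs]
    exact hC _ _ (Real.exp_pos _) hx.le (Real.exp_pos _) (by linarith [Real.exp_pos s0]) _
      (abs_nonneg _)
  have h6 := h4.add h2
  simpa [ContinuousAt] using h6

theorem cos_zero_ge {c : ℝ} (h : Real.cos c = 0) (hc : -(Real.pi / 2) < c) : Real.pi / 2 ≤ c := by
  by_contra hcon
  push Not at hcon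
  have := Real.cos_pos_of_mem_Ioo ⟨hc, hcon⟩
  linarith

theorem count (hk : 1 ≤ k) (hp : 1 < p) {α β : ℝ} (hα : 0 < α) (hαβ : α < β)
    {u du v dv : ℝ → ℝ} (hu : Sol k (fun _ v => f p v) α u du)
    (hv : Sol k (fun _ v => f p v) β v dv) :
    ∃ Φ : ℝ → ℝ, StrictMonoOn Φ {z | 0 < z ∧ u z = 0} ∧
      ∀ z, 0 < z → u z = 0 → 0 < Φ z ∧ Φ z < z ∧ v (Φ z) = 0 := by
  choose! U dU hU using fun γ (hγ : (0 : ℝ) < γ) => exists_pow hk hp hγ
  have hβ : 0 < β := hα.trans hαβ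
  -- nonvanishing
  have hne : ∀ γ, 0 < γ → ∀ r, 0 ≤ r → ¬ (U γ r = 0 ∧ dU γ r = 0) := by
    intro γ hγ r hr hcon
    rcases hr.eq_or_lt with rfl | hr
    · rw [(hU γ hγ).u0] at hcon
      linarith [hcon.1]
    · have hp1 : 0 < p - 1 := by linarith
      have := backward (C := γ ^ (p - 1)) hk (hU γ hγ).eqn (R := r) (by positivity) (fun s hs _ => by
        unfold f
        rw [abs_mul]
        refine mul_le_mul_of_nonneg_right ?_ (abs_nonneg _)
        have hb := (hU γ hγ).bound hk hp hs.le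
        rw [abs_of_pos hγ] at hb
        rw [abs_of_nonneg (by positivity)]
        exact Real.rpow_le_rpow (abs_nonneg _) hb hp1.le) hr hcon.1 hcon.2
      rw [(hU γ hγ).u0] at this
      linarith
  -- joint continuity
  have hlipU : ∀ M, 0 < M → ∃ C, ∀ γ γ', 0 < γ → γ ≤ M → 0 < γ' → γ' ≤ M → ∀ r, 0 ≤ r →
      |U γ r - U γ' r| ≤ |γ - γ'| * Real.exp (C * r) ∧
      |dU γ r - dU γ' r| ≤ |γ - γ'| * Real.exp (C * r) := by
    intro M hM
    refine ⟨(p * M ^ (p - 1) + 2) / 2, fun γ γ' h1 h2 h3 h4 r hr => ?_⟩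
    have := dep_abs (M := M) hk hp (by rwa [abs_of_pos h1]) (by rwa [abs_of_pos h3]) (hU γ h1)
      (hU γ' h3) hr
    rwa [show (p * M ^ (p - 1) + 2) / 2 * r = (p * M ^ (p - 1) + 2) * r / 2 by ring]
  have hcU : Continuous fun x : ℝ × ℝ => U (Real.exp x.2) |x.1| := by
    refine joint_cont (fun γ hγ => (hU γ hγ).cu) fun M hM => ?_
    obtain ⟨C, hC⟩ := hlipU M hM
    exact ⟨C, fun γ γ' h1 h2 h3 h4 r hr => (hC γ γ' h1 h2 h3 h4 r hr).1⟩
  have hcdU : Continuous fun x : ℝ × ℝ => dU (Real.exp x.2) |x.1| := by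
    refine joint_cont (fun γ hγ => (hU γ hγ).cdu) fun M hM => ?_
    obtain ⟨C, hC⟩ := hlipU M hM
    exact ⟨C, fun γ γ' h1 h2 h3 h4 r hr => (hC γ γ' h1 h2 h3 h4 r hr).2⟩
  -- the lift
  set Z : ℝ × ℝ → ℂ := fun x =>
    ((U (Real.exp x.2) |x.1| : ℝ) : ℂ) + ((-dU (Real.exp x.2) |x.1| : ℝ) : ℂ) * Complex.I with hZ
  have hZc : Continuous Z :=
    (Complex.continuous_ofReal.comp hcU).add
      ((Complex.continuous_ofReal.comp hcdU.neg).mul continuous_const)
  have hZre : ∀ x, (Z x).re = U (Real.exp x.2) |x.1| := fun x => by simp [hZ]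
  have hZim : ∀ x, (Z x).im = -dU (Real.exp x.2) |x.1| := fun x => by simp [hZ]
  have hZ0 : ∀ x, Z x ≠ 0 := by
    intro x hx
    refine hne (Real.exp x.2) (Real.exp_pos _) |x.1| (abs_nonneg _) ⟨?_, ?_⟩
    · rw [← hZre, hx]; simp
    · have := hZim x
      rw [hx] at this
      simp at this
      exact this
  have h00 : Complex.exp 0 = Z (0, 0) := by
    apply Complex.ext
    · rw [hZre]; simp [(hU 1 one_pos).u0]
    · rw [hZim]; simp [(hU 1 one_pos).du0]
  obtain ⟨L, ⟨hL0, hL⟩, _⟩ := Complex.isCoveringMapOn_exp.existsUnique_continuousMap_lifts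
    (⟨Z, hZc⟩ : C(ℝ × ℝ, ℂ)) (a₀ := (0, 0)) (e₀ := 0) h00 (fun a => hZ0 a)
  have hLZ : ∀ x, Complex.exp (L x) = Z x := fun x => congrFun hL x
  set θ : ℝ → ℝ → ℝ := fun r s => (L (r, s)).im with hθ
  set ρ : ℝ → ℝ → ℝ := fun r s => Real.exp (L (r, s)).re with hρ
  have hρ0 : ∀ r s, 0 < ρ r s := fun r s => Real.exp_pos _
  have hcos : ∀ r s, ρ r s * Real.cos (θ r s) = U (Real.exp s) |r| := by
    intro r s
    have h1 := congrArg Complex.re (hLZ (r, s))
    rw [hZre, Complex.exp_re] at h1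
    exact h1
  have hsin : ∀ r s, ρ r s * Real.sin (θ r s) = -dU (Real.exp s) |r| := by
    intro r s
    have h1 := congrArg Complex.im (hLZ (r, s))
    rw [hZim, Complex.exp_im] at h1
    exact h1
  have hθc1 : ∀ s, Continuous fun r => θ r s := fun s =>
    Complex.continuous_im.comp (L.continuous.comp (by fun_prop))
  have hθc2 : ∀ r, Continuous fun s => θ r s := fun r =>
    Complex.continuous_im.comp (L.continuous.comp (by fun_prop))
  have hcos0 : ∀ r s, U (Real.exp s) |r| = 0 ↔ Real.cos (θ r s) = 0 := by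
    intro r s
    rw [← hcos, mul_eq_zero]
    constructor
    · rintro (h | h)
      · exact absurd h (hρ0 r s).ne'
      · exact h
    · exact Or.inr
  -- the angle at zero
  have hθ0 : ∀ s, -(Real.pi / 2) < θ 0 s ∧ θ 0 s < Real.pi / 2 := by
    intro s
    have h00' : θ 0 0 = 0 := by simp only [hθ]; rw [hL0]; simp
    have hno : ∀ s', Real.cos (θ 0 s') ≠ 0 := by
      intro s' h
      have := (hcos0 0 s').2 h
      rw [abs_zero, (hU _ (Real.exp_pos s')).u0] at this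
      exact (Real.exp_pos s').ne' this
    have hpi := Real.pi_pos
    constructor
    · by_contra hcon
      push Not at hcon
      obtain ⟨s', hs'⟩ := mem_range_of_exists_le_of_exists_ge (hθc2 0) (c := -(Real.pi / 2))
        ⟨s, hcon⟩ ⟨0, by rw [h00']; linarith⟩
      refine hno s' ?_
      have hs'' : θ 0 s' = -(Real.pi / 2) := hs'
      rw [hs'', Real.cos_neg, Real.cos_pi_div_two]
    · by_contra hcon
      push Not at hcon
      obtain ⟨s', hs'⟩ := mem_range_of_exists_le_of_exists_ge (hθc2 0) (c := Real.pi / 2)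
        ⟨0, by rw [h00']; linarith⟩ ⟨s, hcon⟩
      refine hno s' ?_
      have hs'' : θ 0 s' = Real.pi / 2 := hs'
      rw [hs'', Real.cos_pi_div_two]
  -- crossing in `r`
  have hupr : ∀ s r, 0 < r → Real.cos (θ r s) = 0 → UpAt (fun r => θ r s) r := by
    intro s r hr hc
    have hz := (hcos0 r s).2 hc
    rw [abs_of_pos hr] at hz
    have hUs := hU _ (Real.exp_pos s)
    refine up_of (ρ := fun r => ρ r s) (ρ0 := ρ r s) (hθc1 s).continuousAt hc (fun r => hρ0 r s)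
      (hρ0 r s) ?_
    have hd : dU (Real.exp s) r ≠ 0 := fun h => hne _ (Real.exp_pos s) r hr.le ⟨hz, h⟩
    have h1 := hasDerivAt_iff_tendsto_slope.1 (hUs.hu r hr)
    have h2 := ev_of_slope (x := U (Real.exp s)) (t := r) (l := dU (Real.exp s) r)
      (m := dU (Real.exp s) r) (h1.congr fun s' => by
        rw [slope_def_field, hz, sub_zero]) (mul_self_pos.2 hd)
    have h3 : ∀ᶠ s' in 𝓝[≠] r, 0 < s' :=
      (lt_mem_nhds hr).filter_mono nhdsWithin_le_nhds
    filter_upwards [h2, h3] with s' hs' hs'0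
    rw [hsin r s, hcos s' s, neg_neg, abs_of_pos hr, abs_of_pos hs'0]
    exact hs'
  -- crossing in `s`
  have hups : ∀ r s, 0 < r → Real.cos (θ r s) = 0 → UpAt (fun s => θ r s) s := by
    intro r s hr hc
    have hz := (hcos0 r s).2 hc
    rw [abs_of_pos hr] at hz
    have hUs := hU _ (Real.exp_pos s)
    refine up_of (ρ := fun s => ρ r s) (ρ0 := ρ r s) (hθc2 r).continuousAt hc (fun s => hρ0 r s)
      (hρ0 r s) ?_
    obtain ⟨w, dw, hw0, hw⟩ := exists_lin hk hp hUs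
    have hkey := key_sign hk hp (Real.exp_pos s) hUs hw hw0 hr hz
    have h1 := diffquot hk hp U dU (Real.exp_pos s) hU hw0 hw hr
    have h2 := ev_of_slope (x := fun γ => U γ r) (t := Real.exp s) (l := w r)
      (m := dU (Real.exp s) r) (h1.congr fun γ => by rw [hz, sub_zero]) (by linarith)
    have h3 : Tendsto Real.exp (𝓝[≠] s) (𝓝[≠] (Real.exp s)) := by
      refine tendsto_nhdsWithin_iff.2
        ⟨(Real.continuous_exp.tendsto s).mono_left nhdsWithin_le_nhds, ?_⟩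
      filter_upwards [self_mem_nhdsWithin] with x hx
      exact fun h => hx (Real.exp_injective h)
    filter_upwards [h3.eventually h2, self_mem_nhdsWithin] with s' hs' hne'
    rw [hsin r s, hcos r s', neg_neg, abs_of_pos hr]
    rcases lt_or_gt_of_ne hne' with h | h
    · have h4 : Real.exp s' - Real.exp s < 0 := sub_neg.2 (Real.exp_lt_exp.2 h)
      have h5 : U (Real.exp s') r * dU (Real.exp s) r < 0 := by
        by_contra hcon
        push Not at hcon
        nlinarith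
      exact mul_pos_of_neg_of_neg (sub_neg.2 h) h5
    · have h4 : 0 < Real.exp s' - Real.exp s := sub_pos.2 (Real.exp_lt_exp.2 h)
      exact mul_pos (sub_pos.2 h) ((mul_pos_iff_of_pos_left h4).1 hs')
  -- monotonicity of the angle along zeros
  have hmono : ∀ s r1 r2, 0 < r1 → r1 < r2 → Real.cos (θ r1 s) = 0 → θ r1 s < θ r2 s := by
    intro s r1 r2 h1 h2 h3
    exact barrier (θ := fun r => θ r s) h2 (hθc1 s).continuousOn
      (fun t ht _ hc => hupr s t (h1.trans_le ht) (by rw [hc]; exact h3)) le_rfl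
  have hbig : ∀ s r, 0 < r → Real.cos (θ r s) = 0 → Real.pi / 2 ≤ θ r s := by
    intro s r hr hc
    refine cos_zero_ge hc ?_
    refine barrier (θ := fun r => θ r s) hr (hθc1 s).continuousOn (fun t ht _ htc => ?_)
      (hθ0 s).1.le

    have ht0 : t ≠ 0 := by
      rintro rfl
      have := (hθ0 s).1
      linarith
    refine hupr s t (lt_of_le_of_ne ht ht0.symm) ?_
    rw [htc, Real.cos_neg, Real.cos_pi_div_two]
  -- back to `u`, `v`
  have hea : Real.exp (Real.log α) = α := Real.exp_log hα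
  have heb : Real.exp (Real.log β) = β := Real.exp_log hβ
  have hlog : Real.log α < Real.log β := Real.log_lt_log hα hαβ
  have huU : ∀ r, 0 ≤ r → u r = U α r := fun r hr => (uniq hk hp hu (hU α hα) hr).1
  have hvU : ∀ r, 0 ≤ r → v r = U β r := fun r hr => (uniq hk hp hv (hU β hβ) hr).1
  have hzu : ∀ r, 0 < r → (u r = 0 ↔ Real.cos (θ r (Real.log α)) = 0) := by
    intro r hr
    rw [← hcos0, hea, abs_of_pos hr, huU r hr.le]
  have hzv : ∀ r, 0 < r → (v r = 0 ↔ Real.cos (θ r (Real.log β)) = 0) := by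
    intro r hr
    rw [← hcos0, heb, abs_of_pos hr, hvU r hr.le]
  have hex : ∀ z, 0 < z → u z = 0 → ∃ z', 0 < z' ∧ z' < z ∧
      θ z' (Real.log β) = θ z (Real.log α) := by
    intro z hz huz
    have hc := (hzu z hz).1 huz
    have h1 : θ z (Real.log α) < θ z (Real.log β) :=
      barrier (θ := fun s => θ z s) hlog (hθc2 z).continuousOn (fun t _ _ htc => hups z t hz
        (by rw [htc]; exact hc)) le_rfl
    have h2 : θ 0 (Real.log β) < θ z (Real.log α) :=
      (hθ0 _).2.trans_le (hbig _ z hz hc)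
    obtain ⟨z', hz'1, hz'2⟩ := intermediate_value_Ioo hz.le (hθc1 (Real.log β)).continuousOn
      ⟨h2, h1⟩
    exact ⟨z', hz'1.1, hz'1.2, hz'2⟩
  choose! Φ hΦ using hex
  refine ⟨Φ, ?_, fun z hz huz => ?_⟩
  · rintro z1 ⟨h1, h1'⟩ z2 ⟨h2, h2'⟩ h12
    obtain ⟨a1, a2, a3⟩ := hΦ z1 h1 h1'
    obtain ⟨b1, b2, b3⟩ := hΦ z2 h2 h2'
    have c1 := (hzu z1 h1).1 h1'
    have c2 := (hzu z2 h2).1 h2'
    have d := hmono _ z1 z2 h1 h12 c1
    rw [← a3, ← b3] at d
    by_contra hcon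
    push Not at hcon
    rcases hcon.eq_or_lt with h | h
    · rw [h] at d; exact lt_irrefl _ d
    · have := hmono (Real.log β) (Φ z2) (Φ z1) b1 h (by rw [b3]; exact c2)
      linarith
  · obtain ⟨a1, a2, a3⟩ := hΦ z hz huz
    exact ⟨a1, a2, (hzv _ a1).2 (by rw [a3]; exact (hzu z hz).1 huz)⟩

end Pool.Agent.V7H93.Hyp
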