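import Pool.Agent.V7H93.Hyp.Pow

set_option autoImplicit false

/-! Existence, uniqueness and dependence on the initial value for the power nonlinearity. -/

namespace Pool.Agent.V7H93.Hyp

open Set Filter Topology MeasureTheory

/-- truncation of the argument -/
noncomputable def cl (M v : ℝ) : ℝ := max (-M) (min v M)

theorem cl_cont (M : ℝ) : Continuous (cl M) := by unfold cl; fun_prop

theorem cl_abs {M : ℝ} (hM : 0 ≤ M) (v : ℝ) : |cl M v| ≤ M := by
  unfold cl
  rw [abs_le]
  constructor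
  · exact le_max_left _ _
  · exact max_le (by linarith) (min_le_right _ _)

theorem cl_lip (M v w : ℝ) : |cl M v - cl M w| ≤ |v - w| := by
  unfold cl
  exact (abs_max_sub_max_le_max _ _ _ _).trans (by
    rw [sub_self, abs_zero]
    refine max_le (abs_nonneg _) ?_
    exact (abs_min_sub_min_le_max _ _ _ _).trans (by simp))

theorem cl_of_abs_le {M v : ℝ} (h : |v| ≤ M) : cl M v = v := by
  unfold cl
  rw [abs_le] at h
  rw [min_eq_left h.2, max_eq_right h.1]

theorem cl_neg {M : ℝ} (hM : 0 ≤ M) (v : ℝ) : cl M (-v) = -cl M v := by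
  unfold cl
  rcases le_total v M with h1 | h1 <;> rcases le_total (-M) v with h2 | h2 <;>
    simp only [max_def, min_def] <;> split_ifs <;> linarith

/-- existence for the power nonlinearity -/
theorem exists_pow {k : ℕ} (hk : 1 ≤ k) {p : ℝ} (hp : 1 < p) {α : ℝ} (hα : 0 < α) :
    ∃ u du : ℝ → ℝ, Sol k (fun _ v => f p v) α u du := by
  set fT : ℝ → ℝ := fun v => f p (cl α v) with hfT
  have hfTc : Continuous fT := (f_cont hp).comp (cl_cont α)
  have hL0 : 0 ≤ p * α ^ (p - 1) := by positivity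
  obtain ⟨u, du, h⟩ := exists_sol k (fun _ v => fT v) (by
      exact hfTc.comp continuous_snd) (L := p * α ^ (p - 1)) (B := 0)
    hL0 (fun _ v w => (f_lip hp (cl_abs hα.le v) (cl_abs hα.le w)).trans
      (mul_le_mul_of_nonneg_left (cl_lip α v w) hL0))
    (fun _ => by simp [hfT, cl, hα.le, f_zero]) α
  -- the primitive
  set Q : ℝ → ℝ := fun v => ∫ τ in (0 : ℝ)..v, fT τ with hQ
  have hQd : ∀ v, HasDerivAt Q (fT v) v := fun v =>
    intervalIntegral.integral_hasDerivAt_right (hfTc.intervalIntegrable _ _)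
      (hfTc.stronglyMeasurableAtFilter _ _) hfTc.continuousAt
  have hQneg : ∀ v, Q (-v) = Q v := by
    intro v
    have h1 := intervalIntegral.integral_comp_neg (f := fT) (a := 0) (b := v)
    have h2 : (fun x => fT (-x)) = fun x => -fT x := by
      funext x
      simp only [hfT, cl_neg hα.le, f_neg]
    rw [h2, intervalIntegral.integral_neg, neg_zero, intervalIntegral.integral_symm] at h1
    simp only [hQ]
    have e1 := intervalIntegral.integral_symm (f := fT) (μ := volume) (-v) 0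
    have e2 := intervalIntegral.integral_symm (f := fT) (μ := volume) v 0
    linarith
  have hQbig : ∀ v, α < v → Q α < Q v := by
    intro v hv
    have h1 : Q v - Q α = ∫ τ in α..v, fT τ := by
      simp only [hQ]
      rw [intervalIntegral.integral_interval_sub_left (hfTc.intervalIntegrable _ _)
        (hfTc.intervalIntegrable _ _)]
    have h2 : ∫ τ in α..v, fT τ = ∫ τ in α..v, f p α := by
      refine intervalIntegral.integral_congr fun τ hτ => ?_
      rw [uIcc_of_le hv.le] at hτ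
      simp only [hfT, cl]
      rw [min_eq_right hτ.1, max_eq_right (by linarith)]
    rw [h2, intervalIntegral.integral_const, smul_eq_mul] at h1
    have := mul_pos (sub_pos.2 hv) (f_pos (p := p) hα)
    linarith
  have hanti : AntitoneOn (fun r => du r ^ 2 / 2 + Q (u r)) (Ici 0) := by
    refine antitoneOn_of_deriv_nonpos (convex_Ici 0) ?_ ?_ ?_
    · refine ((h.cdu.pow 2).div_const 2).add ?_
      exact (continuous_iff_continuousAt.2 fun v => (hQd v).continuousAt).comp_continuousOn h.cu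
    · intro s hs
      rw [interior_Ici] at hs
      exact ((((h.hdu s hs).fun_pow 2).div_const 2).add
        ((hQd (u s)).comp s (h.hu s hs))).differentiableAt.differentiableWithinAt
    · intro s hs
      rw [interior_Ici] at hs
      have h1 := ((((h.hdu s hs).fun_pow 2).div_const 2).add
        ((hQd (u s)).comp s (h.hu s hs)))
      have h2 : deriv (fun r => du r ^ 2 / 2 + Q (u r)) s = -(q k s * du s ^ 2) := by
        refine h1.deriv.trans ?_
        simp
        ring
      rw [h2]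
      have := q_pos hk (show 0 < s from hs)
      have : 0 ≤ q k s * du s ^ 2 := by positivity
      linarith
  have hb : ∀ r, 0 ≤ r → |u r| ≤ α := by
    intro r hr
    have h1 := hanti (mem_Ici.2 le_rfl) (mem_Ici.2 hr) hr
    simp only [h.du0, h.u0] at h1
    have h2 : Q (u r) ≤ Q α := by nlinarith [sq_nonneg (du r)]
    rw [abs_le]
    constructor
    · by_contra hcon
      push Not at hcon
      have := hQbig (-(u r)) (by linarith)
      rw [hQneg] at this
      linarith
    · by_contra hcon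
      push Not at hcon
      have := hQbig (u r) hcon
      linarith
  refine ⟨u, du, h.u0, h.du0, h.cu, h.cdu, h.hu, fun r hr => ?_⟩
  have h3 := h.hdu r hr
  simp only [hfT] at h3
  rwa [cl_of_abs_le (hb r hr.le)] at h3

/-- Lipschitz dependence on the initial value -/
theorem dep {k : ℕ} (hk : 1 ≤ k) {p : ℝ} (hp : 1 < p) {α β M : ℝ} (hα : |α| ≤ M) (hβ : |β| ≤ M)
    {u du v dv : ℝ → ℝ} (hu : Sol k (fun _ v => f p v) α u du)
    (hv : Sol k (fun _ v => f p v) β v dv) {r : ℝ} (hr : 0 ≤ r) :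
    (u r - v r) ^ 2 + (du r - dv r) ^ 2 ≤
      (α - β) ^ 2 * Real.exp ((p * M ^ (p - 1) + 2) * r) := by
  have hM : 0 ≤ M := (abs_nonneg _).trans hα
  have h := gronwall (D := 0) hk (hu.eqn.sub hv.eqn) (R := r) (C := p * M ^ (p - 1))
    (by positivity) (fun s hs _ => by
      simpa using f_lip hp ((hu.bound hk hp hs.le).trans hα) ((hv.bound hk hp hs.le).trans hβ))
    hr le_rfl
  simpa [hu.u0, hv.u0] using h

/-- uniqueness -/
theorem uniq {k : ℕ} (hk : 1 ≤ k) {p : ℝ} (hp : 1 < p) {α : ℝ}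
    {u du v dv : ℝ → ℝ} (hu : Sol k (fun _ v => f p v) α u du)
    (hv : Sol k (fun _ v => f p v) α v dv) {r : ℝ} (hr : 0 ≤ r) : u r = v r ∧ du r = dv r := by
  have h := dep hk hp le_rfl le_rfl hu hv hr
  rw [sub_self] at h
  have h0 : (u r - v r) ^ 2 + (du r - dv r) ^ 2 ≤ 0 := by simpa using h
  have h1 : (u r - v r) ^ 2 = 0 :=
    le_antisymm (by nlinarith [sq_nonneg (du r - dv r)]) (sq_nonneg _)
  have h2 : (du r - dv r) ^ 2 = 0 :=
    le_antisymm (by nlinarith [sq_nonneg (u r - v r)]) (sq_nonneg _)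
  have h1' := pow_eq_zero_iff (two_ne_zero) |>.1 h1
  have h2' := pow_eq_zero_iff (two_ne_zero) |>.1 h2
  exact ⟨by linarith, by linarith⟩

/-- existence of the variation -/
theorem exists_lin {k : ℕ} (hk : 1 ≤ k) {p : ℝ} (hp : 1 < p) {α : ℝ}
    {u du : ℝ → ℝ} (hu : Sol k (fun _ v => f p v) α u du) :
    ∃ w dw : ℝ → ℝ, w 0 = 1 ∧ Eqn k w dw (fun r => fd p (u r) * w r) := by
  have hc : Continuous fun r => u |r| :=
    hu.cu.comp_continuous continuous_abs fun x => abs_nonneg x
  have hL0 : 0 ≤ p * |α| ^ (p - 1) := by positivity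
  obtain ⟨w, dw, h⟩ := exists_sol k (fun r w => fd p (u |r|) * w) (by
      have : Continuous fun x : ℝ × ℝ => fd p (u |x.1|) * x.2 :=
        (((fd_cont hp).comp hc).comp continuous_fst).mul continuous_snd
      simpa [Function.uncurry_def] using this) (L := p * |α| ^ (p - 1)) (B := 0) hL0
    (fun r v w => by
      rw [← mul_sub, abs_mul]
      exact mul_le_mul_of_nonneg_right (fd_bound hp (hu.bound hk hp (abs_nonneg r))) (abs_nonneg _))
    (fun r => by simp) 1
  refine ⟨w, dw, h.u0, h.cu, h.cdu, h.du0, h.hu, fun r hr => ?_⟩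
  have := h.hdu r hr
  simpa [abs_of_pos hr] using this

/-- The difference quotients converge to the variation. -/
theorem diffquot {k : ℕ} (hk : 1 ≤ k) {p : ℝ} (hp : 1 < p) {α : ℝ}
    (U dU : ℝ → ℝ → ℝ) (hα : 0 < α) (hU : ∀ γ, 0 < γ → Sol k (fun _ v => f p v) γ (U γ) (dU γ))
    {w dw : ℝ → ℝ} (hw0 : w 0 = 1) (hw : Eqn k w dw (fun r => fd p (U α r) * w r)) {R : ℝ}
    (hR : 0 < R) :
    Tendsto (fun γ => (U γ R - U α R) / (γ - α)) (𝓝[≠] α) (𝓝 (w R)) := by
  set M : ℝ := 2 * α with hM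
  set C : ℝ := p * M ^ (p - 1) with hC
  have hM0 : 0 ≤ M := by positivity
  have hC0 : 0 ≤ C := by positivity
  have hαM : |α| ≤ M := by rw [abs_of_pos hα]; linarith
  set K : ℝ := Real.exp ((C + 2) * R / 2) with hK
  have hK0 : 0 < K := Real.exp_pos _
  have hK2 : K ^ 2 = Real.exp ((C + 2) * R) := by
    rw [hK, sq, ← Real.exp_add]; ring_nf
  rw [Metric.tendsto_nhdsWithin_nhds]
  intro ε hε
  obtain ⟨δ, hδ, hT⟩ := f_taylor hp M (ε := ε / (2 * K ^ 2)) (by positivity)
  refine ⟨min α (δ / K), lt_min hα (by positivity), fun {γ} hne hd => ?_⟩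
  rw [Real.dist_eq] at hd
  have hd1 : |γ - α| < α := hd.trans_le (min_le_left _ _)
  have hd2 : |γ - α| < δ / K := hd.trans_le (min_le_right _ _)
  have hγ0 : 0 < γ := by have := (abs_lt.1 hd1).1; linarith
  have hγM : |γ| ≤ M := by
    rw [abs_of_pos hγ0]; have := (abs_lt.1 hd1).2; linarith
  have hne' : γ - α ≠ 0 := sub_ne_zero.2 hne
  have hne0 : 0 < |γ - α| := abs_pos.2 hne'
  have hu := hU α hα
  have hv := hU γ hγ0
  have hlip : ∀ r, 0 ≤ r → r ≤ R → |U γ r - U α r| ≤ |γ - α| * K := by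
    intro r hr hrR
    have h1 := dep hk hp hγM hαM hv hu hr
    have h2 : Real.exp ((p * M ^ (p - 1) + 2) * r) ≤ K ^ 2 := by
      rw [hK2]
      exact Real.exp_le_exp.2 (mul_le_mul_of_nonneg_left hrR (by positivity))
    have h3 : (U γ r - U α r) ^ 2 ≤ (|γ - α| * K) ^ 2 := by
      rw [mul_pow, sq_abs]
      calc (U γ r - U α r) ^ 2 ≤ (U γ r - U α r) ^ 2 + (dU γ r - dU α r) ^ 2 := by
            nlinarith [sq_nonneg (dU γ r - dU α r)]
        _ ≤ _ := h1
        _ ≤ _ := mul_le_mul_of_nonneg_left h2 (sq_nonneg _)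
    exact abs_le_of_sq_le_sq h3 (by positivity)
  have hz := ((hv.eqn.sub hu.eqn).smul (γ - α)⁻¹).sub hw
  have hg := gronwall (D := ε / (2 * K ^ 2) * K) hk hz (R := R) (C := C) hC0 (fun r hr hrR => by
    have h1 : (γ - α)⁻¹ * (f p (U γ r) - f p (U α r)) - fd p (U α r) * w r =
        fd p (U α r) * ((γ - α)⁻¹ * (U γ r - U α r) - w r) +
        (γ - α)⁻¹ * (f p (U γ r) - f p (U α r) - fd p (U α r) * (U γ r - U α r)) := by ring
    rw [h1]
    have hl := hlip r hr.le hrR.le
    have hbα : |U α r| ≤ M := (hu.bound hk hp hr.le).trans hαM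
    have hbγ : |U γ r| ≤ M := (hv.bound hk hp hr.le).trans hγM
    have h2 := hT (U α r) (U γ r) hbα hbγ (hl.trans_lt (by rwa [lt_div_iff₀ hK0] at hd2))
    refine (abs_add_le _ _).trans (add_le_add ?_ ?_)
    · rw [abs_mul]
      exact mul_le_mul_of_nonneg_right (fd_bound hp hbα) (abs_nonneg _)
    · rw [abs_mul, abs_inv, inv_mul_le_iff₀ hne0]
      refine h2.trans ?_
      have := mul_le_mul_of_nonneg_left hl (by positivity : 0 ≤ ε / (2 * K ^ 2))
      refine this.trans (le_of_eq ?_)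
      ring) hR.le le_rfl
  have h0 : (γ - α)⁻¹ * (U γ 0 - U α 0) - w 0 = 0 := by
    rw [hv.u0, hu.u0, hw0, inv_mul_cancel₀ hne', sub_self]
  rw [h0] at hg
  rw [Real.dist_eq]
  have h5 : ((U γ R - U α R) / (γ - α) - w R) ^ 2 ≤ (ε / 2) ^ 2 := by
    have h6 : (ε / (2 * K ^ 2) * K) ^ 2 * Real.exp ((C + 2) * R) = (ε / 2) ^ 2 := by
      rw [← hK2]
      field_simp
    calc ((U γ R - U α R) / (γ - α) - w R) ^ 2
        = ((γ - α)⁻¹ * (U γ R - U α R) - w R) ^ 2 := by rw [div_eq_inv_mul]
      _ ≤ ((γ - α)⁻¹ * (U γ R - U α R) - w R) ^ 2 +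
          ((γ - α)⁻¹ * (dU γ R - dU α R) - dw R) ^ 2 := by
        nlinarith [sq_nonneg ((γ - α)⁻¹ * (dU γ R - dU α R) - dw R)]
      _ ≤ _ := hg
      _ = (ε / 2) ^ 2 := by rw [← h6]; ring
  have := abs_le_of_sq_le_sq h5 (by positivity)
  linarith

end Pool.Agent.V7H93.Hyp
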