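import Pool.Agent.V7H93.Hyp.Exist

set_option autoImplicit false

/-! Gronwall type lemmas for `v'' = - q v' - g`. -/

namespace Pool.Agent.V7H93.Hyp

open Set Filter Topology

/-- `v'' = - k coth v' - g` on `(0,∞)`, continuous up to zero. -/
structure Eqn (k : ℕ) (v dv g : ℝ → ℝ) : Prop where
  cv : ContinuousOn v (Ici 0)
  cdv : ContinuousOn dv (Ici 0)
  dv0 : dv 0 = 0
  hv : ∀ r, 0 < r → HasDerivAt v (dv r) r
  hdv : ∀ r, 0 < r → HasDerivAt dv (-(q k r) * dv r - g r) r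

theorem Sol.eqn {k : ℕ} {F : ℝ → ℝ → ℝ} {α : ℝ} {u du : ℝ → ℝ} (h : Sol k F α u du) :
    Eqn k u du (fun r => F r (u r)) := ⟨h.cu, h.cdu, h.du0, h.hu, h.hdu⟩

theorem Eqn.sub {k : ℕ} {v dv g v' dv' g' : ℝ → ℝ} (h : Eqn k v dv g) (h' : Eqn k v' dv' g') :
    Eqn k (fun r => v r - v' r) (fun r => dv r - dv' r) (fun r => g r - g' r) where
  cv := h.cv.sub h'.cv
  cdv := h.cdv.sub h'.cdv
  dv0 := by simp [h.dv0, h'.dv0]
  hv r hr := (h.hv r hr).fun_sub (h'.hv r hr)
  hdv r hr := ((h.hdv r hr).fun_sub (h'.hdv r hr)).congr_deriv (by ring)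

theorem Eqn.smul {k : ℕ} {v dv g : ℝ → ℝ} (h : Eqn k v dv g) (c : ℝ) :
    Eqn k (fun r => c * v r) (fun r => c * dv r) (fun r => c * g r) where
  cv := continuousOn_const.mul h.cv
  cdv := continuousOn_const.mul h.cdv
  dv0 := by simp [h.dv0]
  hv r hr := (h.hv r hr).const_mul c
  hdv r hr := ((h.hdv r hr).const_mul c).congr_deriv (by ring)

theorem gronwall {k : ℕ} (hk : 1 ≤ k) {v dv g : ℝ → ℝ} (h : Eqn k v dv g) {R C D : ℝ}
    (hC : 0 ≤ C) (hg : ∀ r, 0 < r → r < R → |g r| ≤ C * |v r| + D) {r : ℝ} (hr0 : 0 ≤ r)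
    (hrR : r ≤ R) : v r ^ 2 + dv r ^ 2 ≤ (v 0 ^ 2 + D ^ 2) * Real.exp ((C + 2) * r) := by
  set K : ℝ := C + 2 with hK
  have hK0 : 0 < K := by positivity
  set Φ : ℝ → ℝ := fun r => Real.exp (-(K * r)) * (v r ^ 2 + dv r ^ 2 + D ^ 2 / K) with hΦ
  have hsub : Icc 0 R ⊆ Ici (0 : ℝ) := Icc_subset_Ici_self
  have hcont : ContinuousOn Φ (Icc 0 R) := by
    refine ContinuousOn.mul (by fun_prop) ?_
    exact (((h.cv.mono hsub).pow 2).add ((h.cdv.mono hsub).pow 2)).add continuousOn_const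
  have hder : ∀ s, 0 < s → HasDerivAt Φ (Real.exp (-(K * s)) * (2 * v s * dv s
      + 2 * dv s * (-(q k s) * dv s - g s) - K * (v s ^ 2 + dv s ^ 2) - D ^ 2)) s := by
    intro s hs
    have h1 : HasDerivAt (fun s => Real.exp (-(K * s))) (Real.exp (-(K * s)) * (-K)) s := by
      have : HasDerivAt (fun s : ℝ => -(K * s)) (-K) s := by
        simpa using ((hasDerivAt_id s).const_mul K).fun_neg
      exact this.exp
    have h2 := (((h.hv s hs).fun_pow 2).fun_add ((h.hdv s hs).fun_pow 2)).add_const (D ^ 2 / K)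
    refine (h1.fun_mul h2).congr_deriv ?_
    field_simp
    ring
  have hanti : AntitoneOn Φ (Icc 0 R) := by
    refine antitoneOn_of_deriv_nonpos (convex_Icc 0 R) hcont ?_ ?_
    · intro s hs
      rw [interior_Icc] at hs
      exact (hder s hs.1).differentiableAt.differentiableWithinAt
    · intro s hs
      rw [interior_Icc] at hs
      rw [(hder s hs.1).deriv]
      have hq := q_pos hk hs.1
      have hgs := hg s hs.1 hs.2
      refine mul_nonpos_of_nonneg_of_nonpos (Real.exp_pos _).le ?_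
      have e1 : 2 * v s * dv s ≤ v s ^ 2 + dv s ^ 2 := by nlinarith [sq_nonneg (v s - dv s)]
      have e2 : -(2 * dv s * g s) ≤ 2 * |dv s| * (C * |v s| + D) := by
        have : -(2 * dv s * g s) ≤ |2 * dv s * g s| := neg_le_abs _
        rw [abs_mul, abs_mul, abs_two] at this
        exact this.trans (mul_le_mul_of_nonneg_left hgs (by positivity))
      have e3 : 2 * |dv s| * |v s| ≤ v s ^ 2 + dv s ^ 2 := by
        have := sq_nonneg (|dv s| - |v s|)
        nlinarith [sq_abs (dv s), sq_abs (v s)]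
      have e4 : 2 * |dv s| * D ≤ dv s ^ 2 + D ^ 2 := by
        have := sq_nonneg (|dv s| - D)
        nlinarith [sq_abs (dv s)]
      have e5 := mul_le_mul_of_nonneg_left e3 hC
      have e6 : 0 ≤ q k s * dv s ^ 2 := by positivity
      have e7 : 0 ≤ v s ^ 2 := sq_nonneg _
      rw [hK]
      nlinarith
  have h0 : Φ r ≤ Φ 0 := hanti ⟨le_rfl, hr0.trans hrR⟩ ⟨hr0, hrR⟩ hr0
  simp only [hΦ, h.dv0, mul_zero, neg_zero, Real.exp_zero, one_mul] at h0
  have h3 : Real.exp (K * r) * Real.exp (-(K * r)) = 1 := by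
    rw [← Real.exp_add]; simp
  have h4 := mul_le_mul_of_nonneg_left h0 (Real.exp_pos (K * r)).le
  rw [← mul_assoc, h3, one_mul] at h4
  have h5 : 0 ≤ D ^ 2 / K := by positivity
  have h6 : D ^ 2 / K ≤ D ^ 2 := by
    rw [div_le_iff₀ hK0]
    nlinarith [sq_nonneg D]
  have h7 := Real.exp_pos (K * r)
  calc v r ^ 2 + dv r ^ 2 ≤ v r ^ 2 + dv r ^ 2 + D ^ 2 / K := by linarith
    _ ≤ _ := h4
    _ ≤ Real.exp (K * r) * (v 0 ^ 2 + D ^ 2) := by
      refine mul_le_mul_of_nonneg_left ?_ h7.le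
      nlinarith
    _ = _ := by ring

theorem gronwall_zero {k : ℕ} (hk : 1 ≤ k) {v dv g : ℝ → ℝ} (h : Eqn k v dv g) {R C : ℝ}
    (hC : 0 ≤ C) (hg : ∀ r, 0 < r → r < R → |g r| ≤ C * |v r|) (h0 : v 0 = 0) {r : ℝ} (hr0 : 0 ≤ r)
    (hrR : r ≤ R) : v r = 0 ∧ dv r = 0 := by
  have := gronwall (D := 0) hk h hC (fun r h1 h2 => by simpa using hg r h1 h2) hr0 hrR
  rw [h0] at this
  have h1 : v r ^ 2 + dv r ^ 2 ≤ 0 := by simpa using this
  constructor
  · exact pow_eq_zero_iff (two_ne_zero) |>.1 (le_antisymm (by nlinarith [sq_nonneg (dv r)]) (sq_nonneg _))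
  · exact pow_eq_zero_iff (two_ne_zero) |>.1 (le_antisymm (by nlinarith [sq_nonneg (v r)]) (sq_nonneg _))

/-- backward uniqueness -/
theorem backward {k : ℕ} (hk : 1 ≤ k) {v dv g : ℝ → ℝ} (h : Eqn k v dv g) {R C : ℝ}
    (hC : 0 ≤ C) (hg : ∀ r, 0 < r → r < R → |g r| ≤ C * |v r|) (hR : 0 < R)
    (h1 : v R = 0) (h2 : dv R = 0) : v 0 = 0 := by
  set Ψ : ℝ → ℝ := fun r => S k r ^ 2 * (Real.exp ((1 + C) * r) * (v r ^ 2 + dv r ^ 2)) with hΨ
  have hsub : Icc 0 R ⊆ Ici (0 : ℝ) := Icc_subset_Ici_self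
  have hcont : ContinuousOn Ψ (Icc 0 R) := by
    refine ContinuousOn.mul ((S_cont k).pow 2).continuousOn (ContinuousOn.mul (by fun_prop) ?_)
    exact (((h.cv.mono hsub).pow 2).add ((h.cdv.mono hsub).pow 2))
  have hder : ∀ s, 0 < s → HasDerivAt Ψ (S k s ^ 2 * Real.exp ((1 + C) * s) *
      (2 * q k s * (v s ^ 2 + dv s ^ 2) + (1 + C) * (v s ^ 2 + dv s ^ 2) + 2 * v s * dv s
      + 2 * dv s * (-(q k s) * dv s - g s))) s := by
    intro s hs
    have h1 : HasDerivAt (fun s => Real.exp ((1 + C) * s)) (Real.exp ((1 + C) * s) * (1 + C)) s := by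
      have : HasDerivAt (fun s : ℝ => (1 + C) * s) (1 + C) s := by
        simpa using ((hasDerivAt_id s).const_mul (1 + C))
      exact this.exp
    have h2 := (((h.hv s hs).fun_pow 2).fun_add ((h.hdv s hs).fun_pow 2))
    refine (((S_deriv k hs).fun_pow 2).fun_mul (h1.fun_mul h2)).congr_deriv ?_
    ring
  have hmono : MonotoneOn Ψ (Icc 0 R) := by
    refine monotoneOn_of_deriv_nonneg (convex_Icc 0 R) hcont ?_ ?_
    · intro s hs
      rw [interior_Icc] at hs
      exact (hder s hs.1).differentiableAt.differentiableWithinAt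
    · intro s hs
      rw [interior_Icc] at hs
      rw [(hder s hs.1).deriv]
      have hq := q_pos hk hs.1
      have hgs := hg s hs.1 hs.2
      refine mul_nonneg (by positivity) ?_
      have e1 : -(2 * v s * dv s) ≤ v s ^ 2 + dv s ^ 2 := by nlinarith [sq_nonneg (v s + dv s)]
      have e2 : (2 * dv s * g s) ≤ 2 * |dv s| * (C * |v s|) := by
        have : (2 * dv s * g s) ≤ |2 * dv s * g s| := le_abs_self _
        rw [abs_mul, abs_mul, abs_two] at this
        exact this.trans (mul_le_mul_of_nonneg_left hgs (by positivity))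
      have e3 : 2 * |dv s| * |v s| ≤ v s ^ 2 + dv s ^ 2 := by
        have := sq_nonneg (|dv s| - |v s|)
        nlinarith [sq_abs (dv s), sq_abs (v s)]
      have e5 := mul_le_mul_of_nonneg_left e3 hC
      have e6 : 0 ≤ q k s * v s ^ 2 := by positivity
      nlinarith
  have hz : ∀ s, 0 < s → s ≤ R → v s = 0 := by
    intro s hs hsR
    have h3 : Ψ s ≤ Ψ R := hmono ⟨hs.le, hsR⟩ ⟨hs.le.trans hsR, le_rfl⟩ hsR
    have h4 : Ψ R = 0 := by simp [hΨ, h1, h2]
    rw [h4] at h3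
    have hS := S_pos k hs
    have h5 : 0 < S k s ^ 2 * Real.exp ((1 + C) * s) := by positivity
    have h6 : v s ^ 2 + dv s ^ 2 ≤ 0 := by
      by_contra hcon
      push Not at hcon
      have : 0 < Ψ s := by
        simp only [hΨ]
        rw [← mul_assoc]
        exact mul_pos h5 hcon
      linarith
    exact pow_eq_zero_iff (two_ne_zero) |>.1
      (le_antisymm (by nlinarith [sq_nonneg (dv s)]) (sq_nonneg _))
  have hlim : Tendsto v (𝓝[>] 0) (𝓝 (v 0)) :=
    (h.cv 0 (mem_Ici.2 le_rfl)).mono_left (nhdsWithin_mono _ Ioi_subset_Ici_self)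
  have hlim2 : Tendsto v (𝓝[>] 0) (𝓝 0) := by
    refine tendsto_const_nhds.congr' ?_
    filter_upwards [Ioo_mem_nhdsGT hR] with s hs
    exact (hz s hs.1 hs.2.le).symm
  exact tendsto_nhds_unique hlim hlim2

end Pool.Agent.V7H93.Hyp
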