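import Mathlib

set_option autoImplicit false

/-! Existence of global solutions of `(S u')' = - S F(r,u)`, `S = sinh^k`, regular at `0`. -/

namespace Pool.Agent.V7H93.Hyp

open Set Filter Topology MeasureTheory
open scoped BoundedContinuousFunction

/-- the weight `sinh^k` -/
noncomputable def S (k : ℕ) (r : ℝ) : ℝ := Real.sinh r ^ k

/-- the friction coefficient `k coth r` -/
noncomputable def q (k : ℕ) (r : ℝ) : ℝ := k * (Real.cosh r / Real.sinh r)

/-- `u`, with derivative `du`, is a regular solution on `[0,∞)` of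
`u'' + k coth(r) u' + F(r,u) = 0`, `u(0) = α`, `u'(0) = 0`. -/
structure Sol (k : ℕ) (F : ℝ → ℝ → ℝ) (α : ℝ) (u du : ℝ → ℝ) : Prop where
  u0 : u 0 = α
  du0 : du 0 = 0
  cu : ContinuousOn u (Ici 0)
  cdu : ContinuousOn du (Ici 0)
  hu : ∀ r, 0 < r → HasDerivAt u (du r) r
  hdu : ∀ r, 0 < r → HasDerivAt du (-(q k r) * du r - F r (u r)) r

theorem S_pos (k : ℕ) {r : ℝ} (hr : 0 < r) : 0 < S k r := pow_pos (Real.sinh_pos_iff.2 hr) k

theorem S_nonneg (k : ℕ) {r : ℝ} (hr : 0 ≤ r) : 0 ≤ S k r := pow_nonneg (Real.sinh_nonneg_iff.2 hr) k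

theorem S_mono (k : ℕ) {r s : ℝ} (hr : 0 ≤ r) (hrs : r ≤ s) : S k r ≤ S k s :=
  pow_le_pow_left₀ (Real.sinh_nonneg_iff.2 hr) (Real.sinh_le_sinh.2 hrs) k

theorem S_cont (k : ℕ) : Continuous (S k) := by
  unfold S; fun_prop

theorem q_pos {k : ℕ} (hk : 1 ≤ k) {r : ℝ} (hr : 0 < r) : 0 < q k r := by
  have h1 : (0 : ℝ) < k := by exact_mod_cast hk
  have := Real.sinh_pos_iff.2 hr
  have := Real.cosh_pos r
  unfold q; positivity

theorem S_deriv (k : ℕ) {r : ℝ} (hr : 0 < r) : HasDerivAt (S k) (q k r * S k r) r := by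
  have h := (Real.hasDerivAt_sinh r).pow k
  have hs := Real.sinh_pos_iff.2 hr
  refine h.congr_deriv ?_
  unfold q S
  rcases k with _ | k
  · simp
  · simp only [Nat.add_sub_cancel]
    field_simp
    ring

/-- the averaged source -/
noncomputable def G (k : ℕ) (g : ℝ → ℝ) (s : ℝ) : ℝ := (S k s)⁻¹ * ∫ τ in (0 : ℝ)..s, S k τ * g τ

theorem G_zero (k : ℕ) (g : ℝ → ℝ) : G k g 0 = 0 := by simp [G]

theorem G_deriv (k : ℕ) {g : ℝ → ℝ} (hg : Continuous g) {s : ℝ} (hs : 0 < s) :
    HasDerivAt (G k g) (-(q k s) * G k g s + g s) s := by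
  have h1 := S_deriv k hs
  have hS := S_pos k hs
  have h2 : HasDerivAt (fun s => ∫ τ in (0 : ℝ)..s, S k τ * g τ) (S k s * g s) s :=
    intervalIntegral.integral_hasDerivAt_right
      (((S_cont k).mul hg).intervalIntegrable _ _)
      (((S_cont k).mul hg).stronglyMeasurableAtFilter _ _) ((S_cont k).mul hg).continuousAt
  have h3 := (h1.fun_inv hS.ne').fun_mul h2
  refine h3.congr_deriv ?_
  unfold G
  generalize (∫ τ in (0 : ℝ)..s, S k τ * g τ) = I
  field_simp

theorem G_bound (k : ℕ) {g : ℝ → ℝ} (hg : Continuous g) {b : ℝ → ℝ} (hb : Continuous b) {s : ℝ}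
    (hs : 0 ≤ s) (h : ∀ τ ∈ Icc 0 s, |g τ| ≤ b τ) : |G k g s| ≤ ∫ τ in (0 : ℝ)..s, b τ := by
  rcases hs.eq_or_lt with rfl | hs
  · simp [G]
  have hS := S_pos k hs
  have h1 : |∫ τ in (0 : ℝ)..s, S k τ * g τ| ≤ ∫ τ in (0 : ℝ)..s, S k s * b τ := by
    refine (intervalIntegral.abs_integral_le_integral_abs hs.le).trans ?_
    refine intervalIntegral.integral_mono_on hs.le
      (((S_cont k).mul hg).abs.intervalIntegrable _ _)
      ((continuous_const.mul hb).intervalIntegrable _ _) fun τ hτ => ?_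
    rw [abs_mul, abs_of_nonneg (S_nonneg k hτ.1)]
    exact mul_le_mul (S_mono k hτ.1 hτ.2) (h τ hτ) (abs_nonneg _) hS.le
  rw [intervalIntegral.integral_const_mul] at h1
  unfold G
  rw [abs_mul, abs_of_pos (inv_pos.2 hS), inv_mul_le_iff₀ hS]
  exact h1

theorem G_contOn (k : ℕ) {g : ℝ → ℝ} (hg : Continuous g) : ContinuousOn (G k g) (Ici 0) := by
  intro s hs
  rcases (show (0:ℝ) ≤ s from hs).eq_or_lt with rfl | hs
  · -- continuity at zero
    rw [ContinuousWithinAt, G_zero]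
    have h1 : Tendsto (fun s : ℝ => ∫ τ in (0 : ℝ)..s, |g τ|) (𝓝[Ici 0] 0) (𝓝 0) := by
      have hc : Continuous fun s : ℝ => ∫ τ in (0 : ℝ)..s, |g τ| :=
        intervalIntegral.continuous_primitive (fun a b => hg.abs.intervalIntegrable a b) 0
      have := hc.tendsto 0
      simp only [intervalIntegral.integral_same] at this
      exact this.mono_left nhdsWithin_le_nhds
    refine squeeze_zero_norm' ?_ h1
    filter_upwards [self_mem_nhdsWithin] with s hs
    exact G_bound k hg hg.abs hs fun τ _ => le_rfl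
  · exact (G_deriv k hg hs).continuousAt.continuousWithinAt

/-- the even extension of `G` is continuous -/
theorem G_abs_cont (k : ℕ) {g : ℝ → ℝ} (hg : Continuous g) : Continuous fun s => G k g |s| :=
  (G_contOn k hg).comp_continuous continuous_abs fun x => abs_nonneg x

theorem G_sub (k : ℕ) {g h : ℝ → ℝ} (hg : Continuous g) (hh : Continuous h) (s : ℝ) :
    G k g s - G k h s = G k (fun τ => g τ - h τ) s := by
  unfold G
  have h1 : IntervalIntegrable (fun τ => S k τ * g τ) volume 0 s :=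
    ((S_cont k).mul hg).intervalIntegrable _ _
  have h2 : IntervalIntegrable (fun τ => S k τ * h τ) volume 0 s :=
    ((S_cont k).mul hh).intervalIntegrable _ _
  rw [← mul_sub, ← intervalIntegral.integral_sub h1 h2]
  simp only [mul_sub]

theorem integral_exp_le {lam : ℝ} (hl : 0 < lam) (s : ℝ) :
    ∫ τ in (0 : ℝ)..s, Real.exp (lam * τ) ≤ Real.exp (lam * s) / lam := by
  have h : ∀ x ∈ uIcc (0 : ℝ) s,
      HasDerivAt (fun τ => Real.exp (lam * τ) / lam) (Real.exp (lam * x)) x := by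
    intro x _
    have h1 : HasDerivAt (fun τ : ℝ => lam * τ) lam x := by
      simpa using (hasDerivAt_id x).const_mul lam
    refine (h1.exp.div_const lam).congr_deriv ?_
    field_simp
  rw [intervalIntegral.integral_eq_sub_of_hasDerivAt h
    ((by fun_prop : Continuous fun τ : ℝ => Real.exp (lam * τ)).intervalIntegrable _ _)]
  have : 0 ≤ Real.exp (lam * 0) / lam := by positivity
  linarith

/-- the double integral bound -/
theorem dbl_bound (k : ℕ) {g : ℝ → ℝ} (hg : Continuous g) {lam M : ℝ} (hl : 0 < lam) (hM : 0 ≤ M)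
    (h : ∀ τ, 0 ≤ τ → |g τ| ≤ M * Real.exp (lam * τ)) {r : ℝ} (hr : 0 ≤ r) :
    |(∫ s in (0 : ℝ)..r, G k g |s|)| ≤ M / lam ^ 2 * Real.exp (lam * r) := by
  have h1 : ∀ s, 0 ≤ s → |G k g s| ≤ M / lam * Real.exp (lam * s) := by
    intro s hs
    refine (G_bound k hg (by fun_prop : Continuous fun τ => M * Real.exp (lam * τ)) hs
      fun τ hτ => h τ hτ.1).trans ?_
    rw [intervalIntegral.integral_const_mul]
    have := mul_le_mul_of_nonneg_left (integral_exp_le hl s) hM
    refine this.trans (le_of_eq ?_)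
    ring
  refine (intervalIntegral.abs_integral_le_integral_abs hr).trans ?_
  have h2 : ∫ s in (0 : ℝ)..r, |(G k g |s|)| ≤ ∫ s in (0 : ℝ)..r, M / lam * Real.exp (lam * s) := by
    refine intervalIntegral.integral_mono_on hr ((G_abs_cont k hg).abs.intervalIntegrable _ _)
      ((by fun_prop : Continuous fun τ => M / lam * Real.exp (lam * τ)).intervalIntegrable _ _)
      fun s hs => ?_
    rw [abs_of_nonneg hs.1]
    exact h1 s hs.1
  refine h2.trans ?_
  rw [intervalIntegral.integral_const_mul]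
  have := mul_le_mul_of_nonneg_left (integral_exp_le hl r) (by positivity : 0 ≤ M / lam)
  refine this.trans (le_of_eq ?_)
  field_simp

/-- **Existence.** -/
theorem exists_sol (k : ℕ) (F : ℝ → ℝ → ℝ) (hF : Continuous (Function.uncurry F)) {L B : ℝ}
    (hL0 : 0 ≤ L) (hL : ∀ r v w, |F r v - F r w| ≤ L * |v - w|) (hB : ∀ r, |F r 0| ≤ B) (α : ℝ) :
    ∃ u du : ℝ → ℝ, Sol k F α u du := by
  have hB0 : 0 ≤ B := (abs_nonneg _).trans (hB 0)
  set lam : ℝ := 2 * L + 1 with hlam
  have hlam0 : 0 < lam := by positivity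
  -- the function `v` associated with `g`
  let V : (ℝ →ᵇ ℝ) → ℝ → ℝ := fun g r => Real.exp (lam * |r|) * g r
  have hVc : ∀ g, Continuous (V g) := fun g => by
    simp only [V]; exact (by fun_prop : Continuous fun r : ℝ => Real.exp (lam * |r|)).mul g.continuous
  let Fg : (ℝ →ᵇ ℝ) → ℝ → ℝ := fun g r => F r (V g r)
  have hFc : ∀ g, Continuous (Fg g) := fun g => hF.comp (continuous_id.prodMk (hVc g))
  have hFb : ∀ g : ℝ →ᵇ ℝ, ∀ τ, 0 ≤ τ → |Fg g τ| ≤ (L * ‖g‖ + B) * Real.exp (lam * τ) := by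
    intro g τ hτ
    have h1 : |F τ (V g τ)| ≤ |F τ (V g τ) - F τ 0| + |F τ 0| := by
      have := abs_add_le (F τ (V g τ) - F τ 0) (F τ 0)
      simpa using this
    have h2 := hL τ (V g τ) 0
    have h3 : |V g τ| ≤ Real.exp (lam * τ) * ‖g‖ := by
      simp only [V]
      rw [abs_mul, abs_of_pos (Real.exp_pos _), abs_of_nonneg hτ]
      exact mul_le_mul_of_nonneg_left (g.norm_coe_le_norm τ) (Real.exp_pos _).le
    rw [sub_zero] at h2
    have h4 : (1 : ℝ) ≤ Real.exp (lam * τ) := Real.one_le_exp (by positivity)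
    have h5 := mul_le_mul_of_nonneg_left h3 hL0
    have h6 := mul_le_mul_of_nonneg_left h4 hB0
    have h7 := hB τ
    simp only [Fg]
    nlinarith
  have hdiff : ∀ g h : ℝ →ᵇ ℝ, ∀ τ, 0 ≤ τ →
      |Fg g τ - Fg h τ| ≤ (L * ‖g - h‖) * Real.exp (lam * τ) := by
    intro g h τ hτ
    refine (hL τ _ _).trans ?_
    have h3 : |V g τ - V h τ| ≤ Real.exp (lam * τ) * ‖g - h‖ := by
      simp only [V]
      rw [← mul_sub, abs_mul, abs_of_pos (Real.exp_pos _), abs_of_nonneg hτ]
      exact mul_le_mul_of_nonneg_left ((g - h).norm_coe_le_norm τ) (Real.exp_pos _).le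
    have h5 := mul_le_mul_of_nonneg_left h3 hL0
    linarith
  -- the operator
  let T0 : (ℝ →ᵇ ℝ) → ℝ → ℝ := fun g r =>
    Real.exp (-(lam * |r|)) * (α - ∫ s in (0 : ℝ)..|r|, G k (Fg g) |s|)
  have hT0c : ∀ g, Continuous (T0 g) := by
    intro g
    have hc : Continuous fun r : ℝ => ∫ s in (0 : ℝ)..r, G k (Fg g) |s| :=
      intervalIntegral.continuous_primitive
        (fun a b => (G_abs_cont k (hFc g)).intervalIntegrable a b) 0
    have hc2 : Continuous fun r : ℝ => ∫ s in (0 : ℝ)..|r|, G k (Fg g) |s| :=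
      hc.comp continuous_abs
    simp only [T0]
    exact (by fun_prop : Continuous fun r : ℝ => Real.exp (-(lam * |r|))).mul
      (continuous_const.sub hc2)
  have hT0b : ∀ g r, |T0 g r| ≤ |α| + (L * ‖g‖ + B) / lam ^ 2 := by
    intro g r
    have hd := dbl_bound k (hFc g) hlam0 (by positivity : 0 ≤ L * ‖g‖ + B) (hFb g) (abs_nonneg r)
    simp only [T0]
    rw [abs_mul, abs_of_pos (Real.exp_pos _)]
    have h1 : |α - (∫ s in (0 : ℝ)..|r|, G k (Fg g) |s|)| ≤
        |α| + |(∫ s in (0 : ℝ)..|r|, G k (Fg g) |s|)| := abs_sub _ _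
    have h2 : Real.exp (-(lam * |r|)) ≤ 1 := Real.exp_le_one_iff.2 (by
      have := abs_nonneg r
      nlinarith [mul_nonneg hlam0.le this])
    have h3 : Real.exp (-(lam * |r|)) * Real.exp (lam * |r|) = 1 := by
      rw [← Real.exp_add]; simp
    have h4 := Real.exp_pos (-(lam * |r|))
    calc Real.exp (-(lam * |r|)) * |α - (∫ s in (0 : ℝ)..|r|, G k (Fg g) |s|)|
        ≤ Real.exp (-(lam * |r|)) * (|α| + (L * ‖g‖ + B) / lam ^ 2 * Real.exp (lam * |r|)) :=
          mul_le_mul_of_nonneg_left (h1.trans (by linarith)) h4.le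
      _ = Real.exp (-(lam * |r|)) * |α| +
          (L * ‖g‖ + B) / lam ^ 2 * (Real.exp (-(lam * |r|)) * Real.exp (lam * |r|)) := by ring
      _ ≤ |α| + (L * ‖g‖ + B) / lam ^ 2 := by
          rw [h3, mul_one]
          have := mul_le_mul_of_nonneg_right h2 (abs_nonneg α)
          linarith
  let T : (ℝ →ᵇ ℝ) → (ℝ →ᵇ ℝ) := fun g =>
    BoundedContinuousFunction.ofNormedAddCommGroup (T0 g) (hT0c g) _ (hT0b g)
  have hTapp : ∀ g r, T g r = T0 g r := fun g r => rfl
  have hcontr : ∀ g h, dist (T g) (T h) ≤ (1 / 2 : ℝ) * dist g h := by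
    intro g h
    rw [BoundedContinuousFunction.dist_le (by positivity)]
    intro r
    rw [hTapp, hTapp, Real.dist_eq]
    have hint : ∀ g : ℝ →ᵇ ℝ, IntervalIntegrable (fun s => G k (Fg g) |s|) volume 0 |r| := fun g =>
      (G_abs_cont k (hFc g)).intervalIntegrable _ _
    have h1 : T0 g r - T0 h r = -(Real.exp (-(lam * |r|)) *
        ∫ s in (0 : ℝ)..|r|, G k (fun τ => Fg g τ - Fg h τ) |s|) := by
      simp only [T0]
      rw [show (∫ s in (0 : ℝ)..|r|, G k (fun τ => Fg g τ - Fg h τ) |s|) =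
        (∫ s in (0 : ℝ)..|r|, G k (Fg g) |s|) - ∫ s in (0 : ℝ)..|r|, G k (Fg h) |s| by
          rw [← intervalIntegral.integral_sub (hint g) (hint h)]
          simp only [G_sub k (hFc g) (hFc h)]]
      ring
    rw [h1, abs_neg, abs_mul, abs_of_pos (Real.exp_pos _)]
    have hd := dbl_bound k ((hFc g).sub (hFc h)) hlam0 (by positivity : 0 ≤ L * ‖g - h‖)
      (hdiff g h) (abs_nonneg r)
    have h3 : Real.exp (-(lam * |r|)) * Real.exp (lam * |r|) = 1 := by
      rw [← Real.exp_add]; simp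
    have h4 := Real.exp_pos (-(lam * |r|))
    have h5 := mul_le_mul_of_nonneg_left hd h4.le
    have h6 : L / lam ^ 2 ≤ 1 / 2 := by
      rw [div_le_iff₀ (by positivity)]
      nlinarith [sq_nonneg L]
    rw [dist_eq_norm]
    calc _ ≤ Real.exp (-(lam * |r|)) * (L * ‖g - h‖ / lam ^ 2 * Real.exp (lam * |r|)) := h5
      _ = L / lam ^ 2 * ‖g - h‖ * (Real.exp (-(lam * |r|)) * Real.exp (lam * |r|)) := by ring
      _ = L / lam ^ 2 * ‖g - h‖ := by rw [h3, mul_one]
      _ ≤ 1 / 2 * ‖g - h‖ := mul_le_mul_of_nonneg_right h6 (norm_nonneg _)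
  have hC : ContractingWith (1 / 2 : NNReal) T := by
    refine ⟨by norm_num, LipschitzWith.of_dist_le_mul fun g h => ?_⟩
    simpa using hcontr g h
  obtain ⟨g, hg⟩ : ∃ g, T g = g := ⟨_, hC.fixedPoint_isFixedPt⟩
  have hfix : ∀ r, V g r = α - ∫ s in (0 : ℝ)..|r|, G k (Fg g) |s| := by
    intro r
    have h1 : g r = T0 g r := by rw [← hTapp, hg]
    simp only [V]
    rw [h1]
    simp only [T0]
    rw [← mul_assoc, ← Real.exp_add]
    simp
  refine ⟨V g, fun r => -G k (Fg g) r, ?_, ?_, (hVc g).continuousOn, ?_, ?_, ?_⟩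
  · rw [hfix]; simp
  · simp [G_zero]
  · exact (G_contOn k (hFc g)).neg
  · intro r hr
    have h1 : HasDerivAt (fun r : ℝ => α - ∫ s in (0 : ℝ)..r, G k (Fg g) |s|)
        (-G k (Fg g) |r|) r := by
      have := intervalIntegral.integral_hasDerivAt_right
        ((G_abs_cont k (hFc g)).intervalIntegrable (μ := volume) 0 r)
        ((G_abs_cont k (hFc g)).stronglyMeasurableAtFilter _ _)
        (G_abs_cont k (hFc g)).continuousAt
      simpa using this.const_sub α
    rw [abs_of_pos hr] at h1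
    refine h1.congr_of_eventuallyEq ?_
    filter_upwards [lt_mem_nhds hr] with s hs
    rw [hfix, abs_of_pos hs]
  · intro r hr
    have := (G_deriv k (hFc g) hr).fun_neg
    refine this.congr_deriv ?_
    simp only [Fg]
    ring

end Pool.Agent.V7H93.Hyp
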