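import Pool.Agent.V7H93.Hyp.Energy

set_option autoImplicit false

/-! The power nonlinearity. -/

namespace Pool.Agent.V7H93.Hyp

open Set Filter Topology MeasureTheory

/-- the nonlinearity -/
noncomputable def f (p v : ℝ) : ℝ := |v| ^ (p - 1) * v

/-- its derivative -/
noncomputable def fd (p v : ℝ) : ℝ := p * |v| ^ (p - 1)

/-- its primitive -/
noncomputable def P (p v : ℝ) : ℝ := |v| ^ (p + 1) / (p + 1)

theorem mul_f {p : ℝ} (hp : 1 < p) (v : ℝ) : v * f p v = |v| ^ (p + 1) := by
  unfold f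
  rcases eq_or_ne v 0 with rfl | hv
  · rw [zero_mul, abs_zero, Real.zero_rpow (by linarith)]
  · have h := abs_pos.2 hv
    have h2 : |v| ^ (p + 1) = |v| ^ (p - 1) * |v| ^ (2 : ℝ) := by
      rw [← Real.rpow_add h]; ring_nf
    rw [h2, Real.rpow_two, sq_abs]
    ring

theorem fd_mul {p : ℝ} (v : ℝ) : v * fd p v = p * f p v := by
  unfold f fd; ring

theorem f_cont {p : ℝ} (hp : 1 < p) : Continuous (f p) := by
  unfold f
  exact (continuous_abs.rpow_const fun x => Or.inr (by linarith)).mul continuous_id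

theorem fd_cont {p : ℝ} (hp : 1 < p) : Continuous (fd p) := by
  unfold fd
  exact continuous_const.mul (continuous_abs.rpow_const fun x => Or.inr (by linarith))

theorem f_neg (p v : ℝ) : f p (-v) = -f p v := by
  unfold f; rw [abs_neg]; ring

theorem f_zero (p : ℝ) : f p 0 = 0 := by simp [f]

theorem f_pos {p v : ℝ} (hv : 0 < v) : 0 < f p v := by
  unfold f
  have := abs_pos.2 hv.ne'
  positivity

theorem P_deriv {p : ℝ} (hp : 1 < p) (v : ℝ) : HasDerivAt (P p) (f p v) v := by
  have h := (hasDerivAt_abs_rpow v (p := p + 1) (by linarith)).div_const (p + 1)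
  refine h.congr_deriv ?_
  unfold f
  rw [show p + 1 - 2 = p - 1 by ring]
  have : p + 1 ≠ 0 := by linarith
  field_simp

theorem P_nonneg {p : ℝ} (hp : 1 < p) (v : ℝ) : 0 ≤ P p v := by
  unfold P
  have := abs_nonneg v
  have : 0 < p + 1 := by linarith
  positivity

theorem f_deriv {p : ℝ} (hp : 1 < p) (v : ℝ) : HasDerivAt (f p) (fd p v) v := by
  rcases lt_trichotomy v 0 with hv | rfl | hv
  · have h1 : HasDerivAt (fun x : ℝ => -((-x) ^ p)) (-(-1 * p * (-v) ^ (p - 1))) v := by
      have := ((hasDerivAt_id v).fun_neg).rpow_const (p := p) (Or.inl (by simp; exact hv.ne))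
      exact this.fun_neg
    refine (h1.congr_of_eventuallyEq ?_).congr_deriv ?_
    · filter_upwards [gt_mem_nhds hv] with x hx
      unfold f
      rw [abs_of_neg hx]
      have h2 : (-x) ^ p = (-x) ^ (p - 1) * (-x) := by
        have : (-x) ^ (p - 1) * (-x) = (-x) ^ (p - 1) * (-x) ^ (1 : ℝ) := by rw [Real.rpow_one]
        rw [this, ← Real.rpow_add (by linarith)]; ring_nf
      rw [h2]; ring
    · unfold fd; rw [abs_of_neg hv]; ring
  · have h0 : fd p 0 = 0 := by
      unfold fd; rw [abs_zero, Real.zero_rpow (by linarith), mul_zero]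
    rw [h0, hasDerivAt_iff_isLittleO_nhds_zero]
    have hc : Tendsto (fun h : ℝ => |h| ^ (p - 1)) (𝓝 0) (𝓝 0) := by
      have := (continuous_abs.rpow_const (p := p - 1) fun x => Or.inr (by linarith)).tendsto (0 : ℝ)
      simpa [Real.zero_rpow (by linarith : p - 1 ≠ 0)] using this
    have : (fun h : ℝ => f p (0 + h) - f p 0 - h • (0 : ℝ)) = fun h => |h| ^ (p - 1) * h := by
      funext h; simp [f]
    rw [this]
    have h3 := (Asymptotics.isLittleO_one_iff ℝ).2 hc
    simpa using h3.mul_isBigO (Asymptotics.isBigO_refl (fun h : ℝ => h) (𝓝 0))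
  · have h1 : HasDerivAt (fun x : ℝ => x ^ p) (1 * p * v ^ (p - 1)) v :=
      (hasDerivAt_id v).rpow_const (p := p) (Or.inl (by simp; exact hv.ne'))
    refine (h1.congr_of_eventuallyEq ?_).congr_deriv ?_
    · filter_upwards [lt_mem_nhds hv] with x hx
      unfold f
      rw [abs_of_pos hx]
      have : x ^ (p - 1) * x = x ^ (p - 1) * x ^ (1 : ℝ) := by rw [Real.rpow_one]
      rw [this, ← Real.rpow_add hx]; ring_nf
    · unfold fd; rw [abs_of_pos hv]; ring

theorem fd_bound {p : ℝ} (hp : 1 < p) {M v : ℝ} (hv : |v| ≤ M) : |fd p v| ≤ p * M ^ (p - 1) := by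
  unfold fd
  have h0 := abs_nonneg v
  rw [abs_of_nonneg (by positivity)]
  exact mul_le_mul_of_nonneg_left (Real.rpow_le_rpow h0 hv (by linarith)) (by linarith)

theorem f_lip {p : ℝ} (hp : 1 < p) {M v w : ℝ} (hv : |v| ≤ M) (hw : |w| ≤ M) :
    |f p v - f p w| ≤ p * M ^ (p - 1) * |v - w| := by
  have h := (convex_Icc (-M) M).norm_image_sub_le_of_norm_hasDerivWithin_le (f := f p)
    (f' := fd p) (C := p * M ^ (p - 1)) (x := w) (y := v)
    (fun x _ => (f_deriv hp x).hasDerivWithinAt) (fun x hx => fd_bound hp (abs_le.2 hx))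
    (abs_le.1 hw) (abs_le.1 hv)
  simpa [Real.norm_eq_abs] using h

/-- uniform first order Taylor estimate -/
theorem f_taylor {p : ℝ} (hp : 1 < p) (M : ℝ) {ε : ℝ} (hε : 0 < ε) :
    ∃ δ > 0, ∀ a b : ℝ, |a| ≤ M → |b| ≤ M → |b - a| < δ →
      |f p b - f p a - fd p a * (b - a)| ≤ ε * |b - a| := by
  have hu : UniformContinuousOn (fd p) (Icc (-M) M) :=
    isCompact_Icc.uniformContinuousOn_of_continuous (fd_cont hp).continuousOn
  rw [Metric.uniformContinuousOn_iff] at hu
  obtain ⟨δ, hδ, h⟩ := hu ε hε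
  refine ⟨δ, hδ, fun a b ha hb hab => ?_⟩
  have hsub : uIcc a b ⊆ Icc (-M) M := by
    exact uIcc_subset_Icc (abs_le.1 ha) (abs_le.1 hb)
  have h1 := (convex_uIcc a b).norm_image_sub_le_of_norm_hasDerivWithin_le
    (f := fun t => f p t - fd p a * t) (f' := fun t => fd p t - fd p a) (C := ε) (x := a) (y := b)
    (fun x _ => ((f_deriv hp x).fun_sub (by simpa using (hasDerivAt_id x).const_mul (fd p a))).hasDerivWithinAt)
    (fun x hx => by
      have h2 : dist x a < δ := by
        rw [Real.dist_eq]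
        exact (abs_sub_left_of_mem_uIcc hx).trans_lt hab
      have := h x (hsub hx) a (abs_le.1 ha) h2
      rw [Real.dist_eq] at this
      exact this.le)
    left_mem_uIcc right_mem_uIcc
  rw [Real.norm_eq_abs, Real.norm_eq_abs] at h1
  refine le_trans (le_of_eq ?_) h1
  congr 1; ring

/-- bound by energy -/
theorem Sol.bound {k : ℕ} (hk : 1 ≤ k) {p : ℝ} (hp : 1 < p) {α : ℝ} {u du : ℝ → ℝ}
    (h : Sol k (fun _ v => f p v) α u du) {r : ℝ} (hr : 0 ≤ r) : |u r| ≤ |α| := by
  have hanti : AntitoneOn (fun r => du r ^ 2 / 2 + P p (u r)) (Ici 0) := by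
    refine antitoneOn_of_deriv_nonpos (convex_Ici 0) ?_ ?_ ?_
    · refine ((h.cdu.pow 2).div_const 2).add ?_
      exact (continuous_iff_continuousAt.2 fun v => (P_deriv hp v).continuousAt).comp_continuousOn h.cu
    · intro s hs
      rw [interior_Ici] at hs
      exact ((((h.hdu s hs).fun_pow 2).div_const 2).add
        ((P_deriv hp (u s)).comp s (h.hu s hs))).differentiableAt.differentiableWithinAt
    · intro s hs
      rw [interior_Ici] at hs
      have h1 := ((((h.hdu s hs).fun_pow 2).div_const 2).add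
        ((P_deriv hp (u s)).comp s (h.hu s hs)))
      have h2 : deriv (fun r => du r ^ 2 / 2 + P p (u r)) s = -(q k s * du s ^ 2) := by
        refine h1.deriv.trans ?_
        simp
        ring
      rw [h2]
      have := q_pos hk (show 0 < s from hs)
      have : 0 ≤ q k s * du s ^ 2 := by positivity
      linarith
  have h1 := hanti (mem_Ici.2 le_rfl) (mem_Ici.2 hr) hr
  simp only [h.du0, h.u0] at h1
  have h2 : P p (u r) ≤ P p α := by nlinarith [sq_nonneg (du r)]
  unfold P at h2
  have h3 : |u r| ^ (p + 1) ≤ |α| ^ (p + 1) := by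
    rwa [div_le_div_iff_of_pos_right (by linarith)] at h2
  exact (Real.rpow_le_rpow_iff (abs_nonneg _) (abs_nonneg _) (by linarith)).1 h3

end Pool.Agent.V7H93.Hyp
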