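import Pool.Agent.V7H93.Hyp.Dep
import Pool.Agent.V7H93.Hyp.AuxA

set_option autoImplicit false

/-! The key sign statement: at a zero `R` of `u`, `u'(R) w(R) > 0`. -/

namespace Pool.Agent.V7H93.Hyp

open Set Filter Topology MeasureTheory

theorem nonneg_of_deriv {Φ Φ' : ℝ → ℝ} {r0 : ℝ} (h0 : 0 < r0)
    (hd : ∀ r, 0 < r → r ≤ r0 → HasDerivAt Φ (Φ' r) r)
    (hs : ∀ r, 0 < r → r < r0 → 0 ≤ Φ' r) (hl : Tendsto Φ (𝓝[>] 0) (𝓝 0)) : 0 ≤ Φ r0 := by
  have hm : MonotoneOn Φ (Ioc 0 r0) := by
    refine monotoneOn_of_deriv_nonneg (convex_Ioc 0 r0)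
      (fun r hr => (hd r hr.1 hr.2).continuousAt.continuousWithinAt) ?_ ?_
    · intro s hs
      rw [interior_Ioc] at hs
      exact (hd s hs.1 hs.2.le).differentiableAt.differentiableWithinAt
    · intro s hs'
      rw [interior_Ioc] at hs'
      rw [(hd s hs'.1 hs'.2.le).deriv]
      exact hs s hs'.1 hs'.2
  refine le_of_tendsto hl ?_
  filter_upwards [Ioo_mem_nhdsGT h0] with s hs
  exact hm ⟨hs.1, hs.2.le⟩ ⟨h0, le_rfl⟩ hs.2.le

theorem nonpos_of_deriv {Φ Φ' : ℝ → ℝ} {r0 : ℝ} (h0 : 0 < r0)
    (hd : ∀ r, 0 < r → r ≤ r0 → HasDerivAt Φ (Φ' r) r)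
    (hs : ∀ r, 0 < r → r < r0 → Φ' r ≤ 0) (hl : Tendsto Φ (𝓝[>] 0) (𝓝 0)) : Φ r0 ≤ 0 := by
  have := nonneg_of_deriv (Φ := fun r => -Φ r) (Φ' := fun r => -Φ' r) h0
    (fun r h1 h2 => (hd r h1 h2).fun_neg) (fun r h1 h2 => by linarith [hs r h1 h2])
    (by simpa using hl.neg)
  linarith

theorem lim0 {v : ℝ → ℝ} (h : ContinuousOn v (Ici 0)) : Tendsto v (𝓝[>] 0) (𝓝 (v 0)) :=
  (h 0 (mem_Ici.2 le_rfl)).mono_left (nhdsWithin_mono _ Ioi_subset_Ici_self)

theorem S_lim {k : ℕ} (hk : 1 ≤ k) : Tendsto (S k) (𝓝[>] 0) (𝓝 0) := by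
  have := (S_cont k).tendsto 0
  have h0 : S k 0 = 0 := by
    unfold S
    rw [Real.sinh_zero, zero_pow (by omega)]
  rw [h0] at this
  exact this.mono_left nhdsWithin_le_nhds

theorem qS_lim {k : ℕ} (hk : 1 ≤ k) : ∃ l, Tendsto (fun r => q k r * S k r) (𝓝[>] 0) (𝓝 l) := by
  refine ⟨k * Real.cosh 0 * Real.sinh 0 ^ (k - 1), ?_⟩
  have hc : Continuous fun r : ℝ => k * Real.cosh r * Real.sinh r ^ (k - 1) := by fun_prop
  have := (hc.tendsto 0).mono_left (nhdsWithin_le_nhds (s := Ioi 0))
  refine this.congr' ?_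
  filter_upwards [self_mem_nhdsWithin] with r hr
  have hs := Real.sinh_pos_iff.2 (show 0 < r from hr)
  obtain ⟨j, rfl⟩ : ∃ j, k = j + 1 := ⟨k - 1, by omega⟩
  unfold q S
  simp only [Nat.add_sub_cancel]
  rw [pow_succ]
  field_simp

theorem bdd_mul_lim {a X : ℝ → ℝ} {K R : ℝ} (hR : 0 < R) (h0 : ∀ r, 0 < r → r ≤ R → 0 < a r)
    (hK : ∀ r, 0 < r → r ≤ R → a r ≤ K) (hX : Tendsto X (𝓝[>] 0) (𝓝 0)) :
    Tendsto (fun r => a r * X r) (𝓝[>] 0) (𝓝 0) := by
  have h1 : Tendsto (fun r => K * |X r|) (𝓝[>] 0) (𝓝 0) := by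
    simpa using hX.abs.const_mul K
  refine squeeze_zero_norm' ?_ h1
  filter_upwards [Ioo_mem_nhdsGT hR] with s hs
  rw [Real.norm_eq_abs, abs_mul, abs_of_pos (h0 s hs.1 hs.2.le)]
  exact mul_le_mul_of_nonneg_right (hK s hs.1 hs.2.le) (abs_nonneg _)

variable {k : ℕ} {p : ℝ}

/-- the Pohozaev type functional is nonnegative -/
theorem J_nonneg (hk : 1 ≤ k) (hp : 1 < p) {α : ℝ} {u du a : ℝ → ℝ} {R K : ℝ}
    (hu : Sol k (fun _ v => f p v) α u du) (hR : 0 < R)
    (ha : ∀ r, 0 < r → HasDerivAt a (q k r * a r - 1) r)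
    (ha0 : ∀ r, 0 < r → r ≤ R → 0 < a r) (haK : ∀ r, 0 < r → r ≤ R → a r ≤ K)
    (hm : AntitoneOn (fun r => q k r * a r) (Ioc 0 R)) (huR : u R = 0) {r : ℝ} (hr : 0 < r)
    (hrR : r ≤ R) : 0 ≤ a r * du r ^ 2 / 2 + u r * du r / 2 + a r * P p (u r) := by
  set J : ℝ → ℝ := fun r => S k r * (a r * du r ^ 2 / 2 + u r * du r / 2 + a r * P p (u r)) with hJ
  have hJd : ∀ r, 0 < r → HasDerivAt J
      (S k r * P p (u r) * (2 * (q k r * a r) - (p + 3) / 2)) r := by
    intro r hr
    have h1 := ((ha r hr).fun_mul ((hu.hdu r hr).fun_pow 2)).div_const 2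
    have h2 := ((hu.hu r hr).fun_mul (hu.hdu r hr)).div_const 2
    have h3 := (ha r hr).fun_mul ((P_deriv hp (u r)).comp r (hu.hu r hr))
    refine ((S_deriv k hr).fun_mul ((h1.fun_add h2).fun_add h3)).congr_deriv ?_
    have h4 : u r * f p (u r) = (p + 1) * P p (u r) := by
      rw [mul_f hp]; unfold P
      have : p + 1 ≠ 0 := by linarith
      field_simp
    simp only [Function.comp]
    push_cast
    linear_combination (-(S k r) / 2) * h4
  have hlim : Tendsto J (𝓝[>] 0) (𝓝 0) := by
    have hSa := bdd_mul_lim hR ha0 haK (S_lim hk)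
    have hdu := lim0 hu.cdu
    rw [hu.du0] at hdu
    have hul := lim0 hu.cu
    have hPc : Continuous (P p) := continuous_iff_continuousAt.2 fun v => (P_deriv hp v).continuousAt
    have h1 := hSa.mul (((hdu.pow 2).div_const 2).add ((hPc.tendsto (u 0)).comp hul))
    have h2 := (S_lim hk).mul ((hul.mul hdu).div_const 2)
    have h3 := h1.add h2
    simp only [zero_mul, add_zero] at h3
    refine h3.congr fun r => ?_
    simp only [hJ, Function.comp]
    ring
  have hJR : 0 ≤ J R := by
    simp only [hJ, huR]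
    have h1 := S_pos k hR
    have h2 := ha0 R hR le_rfl
    have h3 := P_nonneg hp (0 : ℝ)
    have h4 := mul_nonneg h2.le (sq_nonneg (du R))
    have h5 := mul_nonneg h2.le h3
    exact mul_nonneg h1.le (by linarith)
  have key : 0 ≤ J r := by
    rcases le_or_gt ((p + 3) / 2) (2 * (q k r * a r)) with hc | hc
    · refine nonneg_of_deriv hr (fun s hs _ => hJd s hs) (fun s hs hsr => ?_) hlim
      have h1 := hm ⟨hs, hsr.le.trans hrR⟩ ⟨hr, hrR⟩ hsr.le
      simp only at h1
      have h2 := S_pos k hs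
      have h3 := P_nonneg hp (u s)
      exact mul_nonneg (by positivity) (by linarith)
    · have hanti : AntitoneOn J (Icc r R) := by
        refine antitoneOn_of_deriv_nonpos (convex_Icc r R)
          (fun s hs => (hJd s (hr.trans_le hs.1)).continuousAt.continuousWithinAt) ?_ ?_
        · intro s hs
          rw [interior_Icc] at hs
          exact (hJd s (hr.trans hs.1)).differentiableAt.differentiableWithinAt
        · intro s hs
          rw [interior_Icc] at hs
          rw [(hJd s (hr.trans hs.1)).deriv]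
          have h1 := hm ⟨hr, hrR⟩ ⟨hr.trans hs.1, hs.2.le⟩ hs.1.le
          simp only at h1
          have h2 := S_pos k (hr.trans hs.1)
          have h3 := P_nonneg hp (u s)
          exact mul_nonpos_of_nonneg_of_nonpos (by positivity) (by linarith)
      exact hJR.trans (hanti ⟨le_rfl, hrR⟩ ⟨hrR, le_rfl⟩ hrR)
  have hS := S_pos k hr
  exact nonneg_of_mul_nonneg_right key hS

/-- the Wronskian type functional -/
noncomputable def W (k : ℕ) (u du w dw : ℝ → ℝ) (r : ℝ) : ℝ := S k r * (du r * w r - u r * dw r)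

theorem W_deriv {α : ℝ} {u du w dw : ℝ → ℝ}
    (hu : Sol k (fun _ v => f p v) α u du) (hw : Eqn k w dw (fun r => fd p (u r) * w r)) {r : ℝ}
    (hr : 0 < r) : HasDerivAt (W k u du w dw) ((p - 1) * S k r * (f p (u r) * w r)) r := by
  have h1 := ((hu.hdu r hr).fun_mul (hw.hv r hr)).fun_sub ((hu.hu r hr).fun_mul (hw.hdv r hr))
  refine ((S_deriv k hr).fun_mul h1).congr_deriv ?_
  have := fd_mul (p := p) (u r)
  linear_combination (S k r * w r) * this

/-- the second functional -/
noncomputable def B (k : ℕ) (p : ℝ) (a u du w dw : ℝ → ℝ) (r : ℝ) : ℝ :=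
  S k r * (-(du r * w r) - a r * (f p (u r) * w r + du r * dw r))

theorem B_deriv (hp : 1 < p) {α : ℝ} {u du w dw a : ℝ → ℝ}
    (hu : Sol k (fun _ v => f p v) α u du) (hw : Eqn k w dw (fun r => fd p (u r) * w r))
    (ha : ∀ r, 0 < r → HasDerivAt a (q k r * a r - 1) r) {r : ℝ}
    (hr : 0 < r) : HasDerivAt (B k p a u du w dw)
      (-(2 * (q k r * a r - 1)) * S k r * (f p (u r) * w r)) r := by
  have h1 := ((hu.hdu r hr).fun_mul (hw.hv r hr)).fun_neg
  have h2 := (((f_deriv hp (u r)).comp r (hu.hu r hr)).fun_mul (hw.hv r hr)).fun_add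
    ((hu.hdu r hr).fun_mul (hw.hdv r hr))
  have h3 := (S_deriv k hr).fun_mul (h1.fun_sub ((ha r hr).fun_mul h2))
  refine h3.congr_deriv ?_
  simp only [Function.comp]
  ring

/-- `f(u) w` has the sign of `u w`. -/
theorem fw_pos {v w : ℝ} (h : 0 < v * w) : 0 < f p v * w := by
  unfold f
  have h1 : v ≠ 0 := by rintro rfl; simp at h
  have h2 := abs_pos.2 h1
  rw [mul_assoc]
  positivity

theorem key_sign (hk : 1 ≤ k) (hp : 1 < p) {α : ℝ} (hα : 0 < α) {u du w dw : ℝ → ℝ}
    (hu : Sol k (fun _ v => f p v) α u du) (hw : Eqn k w dw (fun r => fd p (u r) * w r))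
    (hw0 : w 0 = 1) {R : ℝ} (hR : 0 < R) (huR : u R = 0) : 0 < du R * w R := by
  obtain ⟨a, ha, ha0, ⟨K, haK⟩, hm'⟩ := exists_a hk hR
  have hm := qa_anti ha hm'
  have hWd : ∀ r, 0 < r → HasDerivAt (W k u du w dw) ((p - 1) * S k r * (f p (u r) * w r)) r :=
    fun r hr => W_deriv hu hw hr
  have hp1 : 0 < p - 1 := by linarith
  have hul := lim0 hu.cu
  have hdul := lim0 hu.cdu
  have hwl := lim0 hw.cv
  have hdwl := lim0 hw.cdv
  rw [hu.u0] at hul
  rw [hu.du0] at hdul
  rw [hw0] at hwl
  rw [hw.dv0] at hdwl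
  have hX : Tendsto (fun r => du r * w r - u r * dw r) (𝓝[>] 0) (𝓝 0) := by
    simpa using (hdul.mul hwl).sub (hul.mul hdwl)
  have hWl : Tendsto (W k u du w dw) (𝓝[>] 0) (𝓝 0) := by
    have h := (S_lim hk).mul hX
    rw [zero_mul] at h
    exact h
  -- strict increase of `W` where `u w > 0`
  have hinc : ∀ s t, 0 < s → s < t → (∀ r, s < r → r < t → 0 < u r * w r) →
      W k u du w dw s < W k u du w dw t := by
    intro s t hs hst h
    have : StrictMonoOn (W k u du w dw) (Icc s t) := by
      refine strictMonoOn_of_deriv_pos (convex_Icc s t)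
        (fun r hr => (hWd r (hs.trans_le hr.1)).continuousAt.continuousWithinAt) fun r hr => ?_
      rw [interior_Icc] at hr
      rw [(hWd r (hs.trans hr.1)).deriv]
      have := S_pos k (hs.trans hr.1)
      exact mul_pos (mul_pos hp1 this) (fw_pos (h r hr.1 hr.2))
    exact this ⟨le_rfl, hst.le⟩ ⟨hst.le, le_rfl⟩ hst
  -- positivity near zero
  obtain ⟨δ, hδ, hpos0⟩ : ∃ δ > 0, ∀ r, 0 < r → r < δ → 0 < u r * w r := by
    have h1 : Tendsto (fun r => u r * w r) (𝓝[>] 0) (𝓝 (α * 1)) := hul.mul hwl
    have h2 := h1.eventually (lt_mem_nhds (by linarith : (0 : ℝ) < α * 1))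
    obtain ⟨δ, hδ, h⟩ := mem_nhdsGT_iff_exists_Ioo_subset.1 h2
    exact ⟨δ, hδ, fun r h3 h4 => h ⟨h3, h4⟩⟩
  have hW0 : ∀ r, 0 < r → r < δ → 0 < W k u du w dw r := by
    intro r hr hrδ
    have h1 : 0 ≤ W k u du w dw (r / 2) := by
      refine nonneg_of_deriv (by linarith) (fun s hs _ => hWd s hs) (fun s hs hsr => ?_) hWl
      have := S_pos k hs
      exact mul_nonneg (mul_pos hp1 this).le (fw_pos (hpos0 s hs (by linarith))).le
    have h2 := hinc (r / 2) r (by linarith) (by linarith) fun s h3 h4 =>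
      hpos0 s (by linarith) (by linarith)
    linarith
  -- all of `(0,R]`
  have hWpos : ∀ r, 0 < r → r ≤ R → 0 < W k u du w dw r := by
    by_contra hcon
    push Not at hcon
    obtain ⟨r1, hr1, hr1R, hr1W⟩ := hcon
    have hr1δ : δ ≤ r1 := by
      by_contra h
      push Not at h
      linarith [hW0 r1 hr1 h]
    have hcW : ContinuousOn (W k u du w dw) (Icc (δ / 2) r1) := fun r hr =>
      (hWd r (by linarith [hr.1])).continuousAt.continuousWithinAt
    have hcl : IsCompact (Icc (δ / 2) r1 ∩ W k u du w dw ⁻¹' Iic 0) :=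
      isCompact_Icc.of_isClosed_subset (hcW.preimage_isClosed_of_isClosed isClosed_Icc isClosed_Iic)
        inter_subset_left
    obtain ⟨t, ⟨⟨ht1, ht2⟩, ht3⟩, htmin⟩ :=
      hcl.exists_isLeast ⟨r1, ⟨by linarith, le_rfl⟩, hr1W⟩
    have ht0 : 0 < t := by linarith
    have htR : t ≤ R := ht2.trans hr1R
    have hbefore : ∀ r, 0 < r → r < t → 0 < W k u du w dw r := by
      intro r hr hrt
      rcases lt_or_ge r (δ / 2) with h | h
      · exact hW0 r hr (by linarith)
      · by_contra hcon
        push Not at hcon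
        have := htmin ⟨⟨h, by linarith⟩, hcon⟩
        linarith
    have hWt : W k u du w dw t = 0 := by
      refine le_antisymm ht3 ?_
      have hc : Tendsto (W k u du w dw) (𝓝[<] t) (𝓝 (W k u du w dw t)) :=
        (hWd t ht0).continuousAt.tendsto.mono_left nhdsWithin_le_nhds
      refine ge_of_tendsto hc ?_
      filter_upwards [Ioo_mem_nhdsLT ht0] with r hr
      exact (hbefore r hr.1 hr.2).le
    -- the functional `C = B + V W` is nonpositive at `t`
    have hBt : B k p a u du w dw t ≤ 0 := by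
      have hCd : ∀ r, 0 < r → r ≤ t → HasDerivAt
          (fun r => (p - 1) * B k p a u du w dw r + 2 * (q k r * a r - 1) * W k u du w dw r)
          (2 * (-(k / Real.sinh r ^ 2) * a r + q k r * (q k r * a r - 1)) * W k u du w dw r) r := by
        intro r hr _
        refine (((B_deriv hp hu hw ha hr).const_mul (p - 1)).fun_add
          ((((qa_deriv ha hr).sub_const 1).const_mul 2).fun_mul (hWd r hr))).congr_deriv ?_
        ring
      have hlim : Tendsto
          (fun r => (p - 1) * B k p a u du w dw r + 2 * (q k r * a r - 1) * W k u du w dw r)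
          (𝓝[>] 0) (𝓝 0) := by
        have hSa := bdd_mul_lim hR ha0 haK (S_lim hk)
        obtain ⟨l, hl⟩ := qS_lim hk
        have hfl := ((f_cont hp).tendsto α).comp hul
        have h1 := ((S_lim hk).mul ((hdul.mul hwl).neg)).sub
          (hSa.mul ((hfl.mul hwl).add (hdul.mul hdwl)))
        have h2 := hl.mul (bdd_mul_lim hR ha0 haK hX)
        have h3 := ((h1.const_mul (p - 1)).add (h2.const_mul 2)).sub (hWl.const_mul 2)
        simp only [zero_mul, mul_zero, sub_zero, add_zero] at h3
        refine h3.congr fun r => ?_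
        simp only [B, W, Function.comp]
        ring
      have h1 := nonpos_of_deriv ht0 hCd (fun r hr hrt => by
        have h2 := hm' r hr (hrt.le.trans htR)
        have h3 := (hbefore r hr hrt).le
        exact mul_nonpos_of_nonpos_of_nonneg (by linarith) h3) hlim
      rw [hWt, mul_zero, add_zero] at h1
      nlinarith
    -- the vectors do not vanish
    have hune : u t ≠ 0 ∨ du t ≠ 0 := by
      by_contra hcon
      push Not at hcon
      have := backward (C := α ^ (p - 1)) hk hu.eqn (R := t) (by positivity) (fun r hr _ => by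
        unfold f
        rw [abs_mul]
        refine mul_le_mul_of_nonneg_right ?_ (abs_nonneg _)
        have hb := hu.bound hk hp hr.le
        rw [abs_of_pos hα] at hb
        rw [abs_of_nonneg (by positivity)]
        exact Real.rpow_le_rpow (abs_nonneg _) hb hp1.le) ht0 hcon.1 hcon.2
      rw [hu.u0] at this
      linarith
    have hwne : w t ≠ 0 ∨ dw t ≠ 0 := by
      by_contra hcon
      push Not at hcon
      have := backward (C := p * |α| ^ (p - 1)) hk hw (R := t) (by positivity) (fun r hr _ => by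
        rw [abs_mul]
        exact mul_le_mul_of_nonneg_right (fd_bound hp (hu.bound hk hp hr.le)) (abs_nonneg _))
        ht0 hcon.1 hcon.2
      rw [hw0] at this
      exact one_ne_zero this
    have hWt' : du t * w t - u t * dw t = 0 := by
      have h1 := S_pos k ht0
      have h2 := hWt
      unfold W at h2
      rcases mul_eq_zero.1 h2 with h3 | h3
      · exact absurd h3 h1.ne'
      · exact h3
    set N : ℝ := u t ^ 2 + du t ^ 2 with hN
    have hN0 : 0 < N := by
      rcases hune with h | h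
      · have := pow_pos (abs_pos.2 h) 2
        rw [sq_abs] at this
        nlinarith [sq_nonneg (du t)]
      · have := pow_pos (abs_pos.2 h) 2
        rw [sq_abs] at this
        nlinarith [sq_nonneg (u t)]
    set κ : ℝ := (w t * u t + dw t * du t) / N with hκ
    have hκu : w t = κ * u t := by
      rw [hκ, div_mul_eq_mul_div, eq_div_iff hN0.ne', hN]
      linear_combination (du t) * hWt'
    have hκdu : dw t = κ * du t := by
      rw [hκ, div_mul_eq_mul_div, eq_div_iff hN0.ne', hN]
      linear_combination (-(u t)) * hWt'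
    have hκ0 : κ ≠ 0 := by
      intro h
      rw [h, zero_mul] at hκu hκdu
      rcases hwne with h1 | h1
      · exact h1 hκu
      · exact h1 hκdu
    have hJ := J_nonneg hk hp hu hR ha ha0 haK hm huR ht0 htR
    have hat := ha0 t ht0 htR
    have hPt : |u t| ^ (p + 1) = (p + 1) * P p (u t) := by
      unfold P
      have : p + 1 ≠ 0 := by linarith
      field_simp
    have hbr : 0 < u t * du t + a t * (|u t| ^ (p + 1) + du t ^ 2) := by
      have h1 : u t * du t + a t * (|u t| ^ (p + 1) + du t ^ 2) =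
          2 * (a t * du t ^ 2 / 2 + u t * du t / 2 + a t * P p (u t)) +
            (p - 1) * (a t * P p (u t)) := by
        rw [hPt]; ring
      rcases eq_or_ne (u t) 0 with h0 | h0
      · have h2 : du t ≠ 0 := by
          rcases hune with h | h
          · exact absurd h0 h
          · exact h
        have h3 := pow_pos (abs_pos.2 h2) 2
        rw [sq_abs] at h3
        rw [h0, abs_zero, Real.zero_rpow (by linarith)]
        have := mul_pos hat h3
        linarith
      · rw [h1]
        have h3 : 0 < P p (u t) := by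
          unfold P
          have := abs_pos.2 h0
          have h4 : 0 < p + 1 := by linarith
          positivity
        have := mul_pos hp1 (mul_pos hat h3)
        linarith
    have hκpos : 0 < κ := by
      have h1 : B k p a u du w dw t =
          -(S k t * κ * (u t * du t + a t * (|u t| ^ (p + 1) + du t ^ 2))) := by
        unfold B
        rw [hκu, hκdu, ← mul_f hp (u t)]
        ring
      rw [h1] at hBt
      have hS := S_pos k ht0
      by_contra hcon
      push Not at hcon
      have h2 : κ < 0 := lt_of_le_of_ne hcon hκ0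
      have h3 := mul_pos (mul_pos hS (neg_pos.2 h2)) hbr
      nlinarith
    -- positivity of `u w` on the left of `t`
    have hleft : ∀ᶠ r in 𝓝[<] t, 0 < u r * w r := by
      rcases eq_or_ne (u t) 0 with h0 | h0
      · have h2 : du t ≠ 0 := by
          rcases hune with h | h
          · exact absurd h0 h
          · exact h
        have hw0' : w t = 0 := by rw [hκu, h0, mul_zero]
        have h3 := (hasDerivAt_iff_tendsto_slope.1 (hu.hu t ht0)).mul
          (hasDerivAt_iff_tendsto_slope.1 (hw.hv t ht0))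
        have h4 : 0 < du t * dw t := by
          rw [hκdu]
          have := pow_pos (abs_pos.2 h2) 2
          rw [sq_abs] at this
          have := mul_pos hκpos this
          linarith
        have h5 := (h3.mono_left (nhdsWithin_mono t (fun x (hx : x < t) => hx.ne))).eventually
          (lt_mem_nhds h4)
        filter_upwards [h5, self_mem_nhdsWithin] with r hr hrt
        simp only [slope_def_field, h0, hw0', sub_zero] at hr
        have h6 : 0 < (r - t) ^ 2 := by
          have : r - t ≠ 0 := sub_ne_zero.2 (ne_of_lt hrt)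
          positivity
        have h7 := mul_pos hr h6
        have h8 : r - t ≠ 0 := sub_ne_zero.2 (ne_of_lt hrt)
        have h9 : u r / (r - t) * (w r / (r - t)) * (r - t) ^ 2 = u r * w r := by
          field_simp
        rwa [h9] at h7
      · have h1 : 0 < u t * w t := by
          rw [hκu]
          have := pow_pos (abs_pos.2 h0) 2
          rw [sq_abs] at this
          have := mul_pos hκpos this
          linarith
        have hc : Tendsto (fun r => u r * w r) (𝓝[<] t) (𝓝 (u t * w t)) :=
          ((hu.hu t ht0).continuousAt.mul (hw.hv t ht0).continuousAt).tendsto.mono_left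
            nhdsWithin_le_nhds
        exact hc.eventually (lt_mem_nhds h1)
    obtain ⟨l, hl, hlsub⟩ := (mem_nhdsLT_iff_exists_Ioo_subset' ht0).1 (hleft.and (Ioo_mem_nhdsLT ht0))
    have hl' : l < t := hl
    set s : ℝ := (max l 0 + t) / 2 with hs
    have hs1 : max l 0 < s := by have := max_lt hl' ht0; linarith
    have hs2 : s < t := by have := max_lt hl' ht0; linarith
    have hs0 : 0 < s := (le_max_right _ _).trans_lt hs1
    have hsl : l < s := (le_max_left _ _).trans_lt hs1
    have h1 := hinc s t hs0 hs2 fun r h1 h2 => (hlsub ⟨hsl.trans h1, h2⟩).1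
    rw [hWt] at h1
    linarith [hbefore s hs0 hs2]
  have h := hWpos R hR le_rfl
  unfold W at h
  rw [huR, zero_mul, sub_zero] at h
  exact (mul_pos_iff_of_pos_left (S_pos k hR)).1 h

end Pool.Agent.V7H93.Hyp
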